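import Pool.Agent.R770.QC.Quat
import Pool.Agent.W666.GB.Main

set_option autoImplicit false

/-!
# Determinants of forms compatible with a complex structure
-/

namespace Pool.Agent.H36QD

open Finset Pool.Agent.R770.QC

section adapted

variable {V : Type} [AddCommGroup V] [Module ℝ V] {m : ℕ}

/-- a basis adapted to a complex structure -/
theorem exists_adapted (b : Module.Basis (Fin m × Bool) ℝ V) (J : V →ₗ[ℝ] V)
    (hJ : ∀ x, J (J x) = -x) :
    ∃ f : Module.Basis (Fin m × Bool) ℝ V, ∀ a, f (a, true) = J (f (a, false)) := by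
  classical
  have hJ2 : J * J = -1 := by
    ext x
    simp [hJ]
  let φ : ℂ →ₐ[ℝ] Module.End ℝ V := Complex.lift ⟨J, hJ2⟩
  let _ : Module ℂ V := Module.compHom V φ.toRingHom
  have hs : ∀ (z : ℂ) (x : V), z • x = φ z x := fun _ _ => rfl
  have : IsScalarTower ℝ ℂ V := by
    refine ⟨fun r z x => ?_⟩
    rw [hs, hs, map_smul]
    rfl
  have : Module.Finite ℝ V := Module.Finite.of_basis b
  have : Module.Finite ℂ V := Module.Finite.right ℝ ℂ V
  have hfin : Module.finrank ℂ V = m := by
    have h1 := Module.finrank_mul_finrank ℝ ℂ V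
    rw [Module.finrank_eq_card_basis b, Complex.finrank_real_complex, Fintype.card_prod,
      Fintype.card_fin, Fintype.card_bool] at h1
    omega
  let c : Module.Basis (Fin m) ℂ V := Module.finBasisOfFinrankEq ℂ V hfin
  let g : Module.Basis (Fin 2 × Fin m) ℝ V := Complex.basisOneI.smulTower c
  let eqv : Fin 2 × Fin m ≃ Fin m × Bool :=
    (Equiv.prodComm _ _).trans (Equiv.prodCongr (Equiv.refl _) finTwoEquiv)
  refine ⟨g.reindex eqv, fun a => ?_⟩
  have h0 : eqv.symm (a, false) = (0, a) := rfl
  have h1 : eqv.symm (a, true) = (1, a) := rfl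
  rw [Module.Basis.reindex_apply, Module.Basis.reindex_apply, h0, h1]
  show (Complex.basisOneI.smulTower c) (1, a) = J ((Complex.basisOneI.smulTower c) (0, a))
  rw [Module.Basis.smulTower_apply, Module.Basis.smulTower_apply]
  simp only [Complex.coe_basisOneI, Matrix.cons_val_zero, Matrix.cons_val_one, one_smul]
  rw [hs]
  simp [φ, Complex.liftAux_apply]

end adapted

section forms

variable {V : Type} [AddCommGroup V] [Module ℝ V]

/-- bilinear forms -/
abbrev Bil (V : Type) [AddCommGroup V] [Module ℝ V] : Type := V →ₗ[ℝ] V →ₗ[ℝ] ℝ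

/-- the matrix of `b + i d` -/
noncomputable def cmat {ι : Type} (f : ι → V) (b d : Bil V) : Matrix ι ι ℂ :=
  Matrix.of fun i j => (b (f i) (f j) : ℂ) + Complex.I * (d (f i) (f j) : ℂ)

/-- the complex bilinear form `b + i d` (`b`, `d` real) is nondegenerate: no vector `x + i y` other
than zero is annihilated -/
def CNondeg (b d : Bil V) : Prop :=
  ∀ x y : V, (∀ z, b x z = d y z) → (∀ z, b y z = - d x z) → x = 0 ∧ y = 0

variable {ι : Type} [Fintype ι] [DecidableEq ι]

omit [DecidableEq ι] in
theorem bil_basis (e f : Module.Basis ι ℝ V) (b : Bil V) (i j : ι) :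
    b (f i) (f j) = ∑ a, ∑ c, e.toMatrix f a i * e.toMatrix f c j * b (e a) (e c) := by
  have h1 : ∀ i, f i = ∑ a, e.toMatrix f a i • e a := by
    intro i
    rw [Module.Basis.sum_toMatrix_smul_self]
  rw [h1 i, h1 j]
  simp only [map_sum, map_smul, LinearMap.sum_apply, LinearMap.smul_apply, smul_eq_mul,
    Finset.mul_sum]
  refine Finset.sum_comm.trans (Finset.sum_congr rfl fun a _ => Finset.sum_congr rfl fun c _ => ?_)
  ring

theorem cmat_basis (e f : Module.Basis ι ℝ V) (b d : Bil V) :
    cmat f b d = ((e.toMatrix f).map (fun x : ℝ => (x : ℂ))).transpose * cmat e b d *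
      (e.toMatrix f).map (fun x : ℝ => (x : ℂ)) := by
  ext i j
  simp only [cmat, Matrix.of_apply, Matrix.mul_apply, Matrix.transpose_apply, Matrix.map_apply]
  rw [bil_basis e f b, bil_basis e f d]
  push_cast
  simp only [Finset.mul_sum, Finset.sum_mul, ← Finset.sum_add_distrib]
  rw [Finset.sum_comm]
  refine Finset.sum_congr rfl fun a _ => Finset.sum_congr rfl fun c _ => ?_
  ring

theorem cmat_det (e f : Module.Basis ι ℝ V) (b d : Bil V) :
    (cmat f b d).det = (((e.toMatrix f).det ^ 2 : ℝ) : ℂ) * (cmat e b d).det := by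
  have h1 : ((e.toMatrix f).map (fun x : ℝ => (x : ℂ))).det = (((e.toMatrix f).det : ℝ) : ℂ) :=
    (RingHom.map_det Complex.ofRealHom (e.toMatrix f)).symm
  rw [cmat_basis e f, Matrix.det_mul, Matrix.det_mul, Matrix.det_transpose, h1]
  push_cast
  ring

theorem toMatrix_det_ne (e f : Module.Basis ι ℝ V) : (e.toMatrix f).det ≠ 0 := by
  intro h
  have h1 : e.toMatrix f * f.toMatrix e = 1 := Module.Basis.toMatrix_mul_toMatrix_flip e f
  have h2 := congrArg Matrix.det h1
  rw [Matrix.det_mul, h, zero_mul, Matrix.det_one] at h2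
  exact zero_ne_one h2

/-- nondegeneracy is the nonvanishing of the determinant -/
theorem cmat_nondeg (e : Module.Basis ι ℝ V) (b d : Bil V) :
    (cmat e b d).det ≠ 0 ↔ CNondeg b d := by
  have key : ∀ v : ι → ℂ, Matrix.vecMul v (cmat e b d) = 0 ↔
      (∀ z, b (∑ i, (v i).re • e i) z = d (∑ i, (v i).im • e i) z) ∧
      (∀ z, b (∑ i, (v i).im • e i) z = - d (∑ i, (v i).re • e i) z) := by
    intro v
    have h1 : ∀ j, Matrix.vecMul v (cmat e b d) j =
        ((b (∑ i, (v i).re • e i) (e j) - d (∑ i, (v i).im • e i) (e j) : ℝ) : ℂ) +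
        Complex.I * ((b (∑ i, (v i).im • e i) (e j) + d (∑ i, (v i).re • e i) (e j) : ℝ) : ℂ) := by
      intro j
      simp only [Matrix.vecMul, dotProduct, cmat, Matrix.of_apply, map_sum, map_smul,
        LinearMap.sum_apply, LinearMap.smul_apply, smul_eq_mul]
      push_cast
      simp only [mul_add, Finset.mul_sum, ← Finset.sum_add_distrib, ← Finset.sum_sub_distrib]
      refine Finset.sum_congr rfl fun i _ => ?_
      conv_lhs => rw [← Complex.re_add_im (v i)]
      linear_combination ((v i).im * (d (e i) (e j)) : ℂ) * Complex.I_sq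
    constructor
    · intro h
      have h2 : ∀ j, b (∑ i, (v i).re • e i) (e j) - d (∑ i, (v i).im • e i) (e j) = 0 ∧
          b (∑ i, (v i).im • e i) (e j) + d (∑ i, (v i).re • e i) (e j) = 0 := by
        intro j
        have h3 := h1 j
        rw [h, Pi.zero_apply] at h3
        have hr := congrArg Complex.re h3
        have hi := congrArg Complex.im h3
        simp only [Complex.zero_re, Complex.zero_im, Complex.add_re, Complex.add_im,
          Complex.mul_re, Complex.mul_im, Complex.ofReal_re, Complex.ofReal_im, Complex.I_re,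
          Complex.I_im] at hr hi
        constructor <;> linarith
      constructor
      · intro z
        have h4 : b (∑ i, (v i).re • e i) = d (∑ i, (v i).im • e i) :=
          e.ext fun j => by linarith [(h2 j).1]
        rw [h4]
      · intro z
        have h4 : b (∑ i, (v i).im • e i) = - d (∑ i, (v i).re • e i) :=
          e.ext fun j => by
            rw [LinearMap.neg_apply]
            linarith [(h2 j).2]
        rw [h4, LinearMap.neg_apply]
    · rintro ⟨h2, h3⟩
      funext j
      rw [h1, h2, h3]
      simp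
  constructor
  · intro hdet x y hx hy
    by_contra hne
    apply hdet
    rw [← Matrix.exists_vecMul_eq_zero_iff]
    refine ⟨fun i => (e.repr x i : ℂ) + Complex.I * (e.repr y i : ℂ), ?_, ?_⟩
    · intro h0
      apply hne
      constructor
      · rw [← e.sum_repr x]
        refine Finset.sum_eq_zero fun i _ => ?_
        have h1 := congrArg Complex.re (congrFun h0 i)
        simp at h1
        rw [h1, zero_smul]
      · rw [← e.sum_repr y]
        refine Finset.sum_eq_zero fun i _ => ?_
        have h1 := congrArg Complex.im (congrFun h0 i)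
        simp at h1
        rw [h1, zero_smul]
    · rw [key]
      have e1 : ∑ i, ((e.repr x i : ℂ) + Complex.I * (e.repr y i : ℂ)).re • e i = x := by
        conv_rhs => rw [← e.sum_repr x]
        refine Finset.sum_congr rfl fun i _ => ?_
        simp
      have e2 : ∑ i, ((e.repr x i : ℂ) + Complex.I * (e.repr y i : ℂ)).im • e i = y := by
        conv_rhs => rw [← e.sum_repr y]
        refine Finset.sum_congr rfl fun i _ => ?_
        simp
      rw [e1, e2]
      exact ⟨hx, hy⟩
  · intro hn hdet
    rw [← Matrix.exists_vecMul_eq_zero_iff] at hdet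
    obtain ⟨v, hv, h⟩ := hdet
    rw [key] at h
    obtain ⟨h1, h2⟩ := hn _ _ h.1 h.2
    apply hv
    funext i
    have h3 := (Fintype.linearIndependent_iff.1 e.linearIndependent) _ h1 i
    have h4 := (Fintype.linearIndependent_iff.1 e.linearIndependent) _ h2 i
    exact Complex.ext h3 h4

/-- **The determinant** of a form compatible with a complex structure. -/
theorem cmat_nonneg {m : ℕ} (e : Module.Basis (Fin m × Bool) ℝ V) (J : V →ₗ[ℝ] V)
    (hJ : ∀ x, J (J x) = -x) (b d : Bil V) (hb : ∀ x y, b (J x) (J y) = b x y)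
    (hd : ∀ x y, d (J x) (J y) = - d x y) : ∃ r : ℝ, 0 ≤ r ∧ (cmat e b d).det = r := by
  obtain ⟨f, hf⟩ := exists_adapted e J hJ
  have hQ : QM (cmat f b d) := by
    rintro ⟨a, s⟩ ⟨c, t⟩
    simp only [cmat, Matrix.of_apply, map_add, map_mul, Complex.conj_ofReal, Complex.conj_I]
    have b1 := hb (f (a, s)) (f (c, t))
    have d1 := hd (f (a, s)) (f (c, t))
    cases s <;> cases t <;>
      simp only [hf, hJ, map_neg, LinearMap.neg_apply, neg_neg, Bool.not_true, Bool.not_false,
        es, if_true, Bool.false_eq_true, if_false] at b1 d1 ⊢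
    all_goals
      have b2 := congrArg (fun x : ℝ => (x : ℂ)) b1
      have d2 := congrArg (fun x : ℝ => (x : ℂ)) d1
      push_cast at b2 d2
    · linear_combination b2 + Complex.I * d2
    · linear_combination - b2 - Complex.I * d2
    · linear_combination - b2 - Complex.I * d2
    · linear_combination b2 + Complex.I * d2
  obtain ⟨r, hr, hr'⟩ := quat_det' _ hQ
  have h1 := cmat_det e f b d
  have h2 : 0 < (e.toMatrix f).det ^ 2 := by
    have := toMatrix_det_ne e f
    positivity
  refine ⟨r / (e.toMatrix f).det ^ 2, by positivity, ?_⟩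
  rw [hr'] at h1
  have h3 : (((e.toMatrix f).det ^ 2 : ℝ) : ℂ) ≠ 0 := by exact_mod_cast h2.ne'
  rw [Complex.ofReal_div, h1]
  field_simp

end forms

end Pool.Agent.H36QD
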