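import Pool.Agent.H36QD.Fin

set_option autoImplicit false

/-!
# Examples of the criterion
-/

namespace Pool.Agent.H36QD

open Finset Pool.Agent.W666.GB Pool.Agent.W669.HD

section exa

variable {V : Type} [NormedAddCommGroup V] [InnerProductSpace ℝ V] {m : ℕ}

/-- the tensor `2 ω(x,y) ω(z,w) + ω(x,z) ω(y,w) - ω(x,w) ω(y,z)` of the form `ω(x,y) = ⟨J x, y⟩` -/
noncomputable def om4 (J : V →ₗ[ℝ] V) (x y z w : V) : ℝ :=
  2 * inner ℝ (J x) y * inner ℝ (J z) w + inner ℝ (J x) z * inner ℝ (J y) w -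
    inner ℝ (J x) w * inner ℝ (J y) z

/-- the Plücker coordinates -/
noncomputable def plu (e : OrthonormalBasis (Fin m × Bool) ℝ V) (i j : Fin m × Bool) (x y : V) :
    ℝ := inner ℝ x (e i) * inner ℝ y (e j) - inner ℝ x (e j) * inner ℝ y (e i)

theorem one4_plu (e : OrthonormalBasis (Fin m × Bool) ℝ V) (x y z w : V) :
    one4 x y z w = (1 / 2) * ∑ i, ∑ j, plu e i j x y * plu e i j z w := by
  have h1 : ∀ x z : V, (inner ℝ x z : ℝ) = ∑ i, inner ℝ x (e i) * inner ℝ z (e i) := by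
    intro x z
    rw [← e.sum_inner_mul_inner x z]
    exact Finset.sum_congr rfl fun i _ => by rw [real_inner_comm z]
  have h2 : ∑ i, ∑ j, plu e i j x y * plu e i j z w = 2 * one4 x y z w := by
    have h3 : ∀ a b c d : Fin m × Bool → ℝ, ∑ i, ∑ j, (a i * b j - a j * b i) *
        (c i * d j - c j * d i) = 2 * ((∑ i, a i * c i) * (∑ j, b j * d j) -
          (∑ i, a i * d i) * (∑ j, b j * c j)) := by
      intro a b c d
      have h4 : ∀ p q : Fin m × Bool → ℝ, (∑ i, p i) * (∑ j, q j) = ∑ i, ∑ j, p i * q j :=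
        fun p q => Finset.sum_mul_sum _ _ _ _
      have h5 : ∑ i, ∑ j, (a i * b j - a j * b i) * (c i * d j - c j * d i) =
          ((∑ i, ∑ j, (a i * c i) * (b j * d j)) + ∑ i, ∑ j, (b i * d i) * (a j * c j)) -
          ((∑ i, ∑ j, (a i * d i) * (b j * c j)) + ∑ i, ∑ j, (b i * c i) * (a j * d j)) := by
        simp only [← Finset.sum_add_distrib, ← Finset.sum_sub_distrib]
        exact Finset.sum_congr rfl fun i _ => Finset.sum_congr rfl fun j _ => by ring
      rw [h5, ← h4, ← h4, ← h4, ← h4]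
      ring
    simp only [plu]
    rw [h3, one4, h1 x z, h1 y w, h1 x w, h1 y z]
  rw [h2]
  ring

theorem val_one4 (e : OrthonormalBasis (Fin m × Bool) ℝ V) (J : V →ₗ[ℝ] V) (s : ℝ) {n : ℕ}
    (x y : Fin n → V) : 0 ≤ val one4 J s x y := by
  have h : val one4 J s x y = (1 / 2) * ∑ i, ∑ j,
      (∑ a, (plu e i j (x a) (y a) + s * plu e i j (J (x a)) (J (y a)))) ^ 2 := by
    have h1 : ∀ i j, (∑ a, (plu e i j (x a) (y a) + s * plu e i j (J (x a)) (J (y a)))) ^ 2 =
        ∑ a, ∑ b, (plu e i j (x a) (y a) + s * plu e i j (J (x a)) (J (y a))) *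
          (plu e i j (x b) (y b) + s * plu e i j (J (x b)) (J (y b))) := by
      intro i j
      rw [sq, Finset.sum_mul_sum]
    simp only [h1, val, one4_plu e]
    have h2 : ∑ i, ∑ j, ∑ a, ∑ b, (plu e i j (x a) (y a) + s * plu e i j (J (x a)) (J (y a))) *
          (plu e i j (x b) (y b) + s * plu e i j (J (x b)) (J (y b))) =
        ∑ a, ∑ b, ∑ i, ∑ j, (plu e i j (x a) (y a) + s * plu e i j (J (x a)) (J (y a))) *
          (plu e i j (x b) (y b) + s * plu e i j (J (x b)) (J (y b))) := by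
      rw [Finset.sum_congr rfl fun i _ => Finset.sum_comm, Finset.sum_comm]
      refine Finset.sum_congr rfl fun a _ => ?_
      rw [Finset.sum_congr rfl fun i _ => Finset.sum_comm, Finset.sum_comm]
    rw [h2, Finset.mul_sum]
    refine Finset.sum_congr rfl fun a _ => ?_
    rw [Finset.mul_sum]
    refine Finset.sum_congr rfl fun b _ => ?_
    simp only [Finset.mul_sum, ← Finset.sum_add_distrib]
    exact Finset.sum_congr rfl fun i _ => Finset.sum_congr rfl fun j _ => by ring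
  rw [h]
  have : 0 ≤ ∑ i, ∑ j,
      (∑ a, (plu e i j (x a) (y a) + s * plu e i j (J (x a)) (J (y a)))) ^ 2 :=
    Finset.sum_nonneg fun i _ => Finset.sum_nonneg fun j _ => sq_nonneg _
  linarith

theorem om_skew {J : V →ₗ[ℝ] V} (hJ : ∀ x, J (J x) = -x)
    (hJo : ∀ x y, inner ℝ (J x) (J y) = (inner ℝ x y : ℝ)) (x y : V) :
    (inner ℝ x (J y) : ℝ) = - inner ℝ (J x) y := by
  rw [← hJo x (J y), hJ, inner_neg_right]

/-- the value of `om4` -/
theorem val_om4 {J : V →ₗ[ℝ] V} (hJ : ∀ x, J (J x) = -x)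
    (hJo : ∀ x y, inner ℝ (J x) (J y) = (inner ℝ x y : ℝ)) (s : ℝ) (hs : s ^ 2 = 1) {n : ℕ}
    (x y : Fin n → V) : val (om4 J) J s x y =
      2 * ((1 + s) * ∑ a, inner ℝ (J (x a)) (y a)) ^ 2 + s * val one4 J s x y := by
  have h0 : ((1 + s) * ∑ a, inner ℝ (J (x a)) (y a)) ^ 2 =
      ∑ a, ∑ b, (1 + s) ^ 2 * (inner ℝ (J (x a)) (y a) * inner ℝ (J (x b)) (y b)) := by
    rw [mul_pow, sq (∑ a, _), Finset.sum_mul_sum, Finset.mul_sum]
    exact Finset.sum_congr rfl fun a _ => by rw [Finset.mul_sum]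
  rw [h0]
  unfold val
  rw [Finset.mul_sum, Finset.mul_sum, ← Finset.sum_add_distrib]
  refine Finset.sum_congr rfl fun a _ => ?_
  rw [Finset.mul_sum, Finset.mul_sum, ← Finset.sum_add_distrib]
  refine Finset.sum_congr rfl fun b _ => ?_
  simp only [om4, one4, hJ, inner_neg_left, om_skew hJ hJo, neg_neg, map_neg]
  linear_combination (-(s * (inner ℝ (x a) (x b) * inner ℝ (y a) (y b) -
    inner ℝ (x a) (y b) * inner ℝ (y a) (x b)) +
    (inner ℝ (J (x a)) (x b) * inner ℝ (J (y a)) (y b) -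
    inner ℝ (J (x a)) (y b) * inner ℝ (J (y a)) (x b))) : ℝ) * hs

/-- **Examples of the criterion.** -/
theorem kaehler_example (e : OrthonormalBasis (Fin m × Bool) ℝ V) {J : V →ₗ[ℝ] V}
    (hJ : ∀ x, J (J x) = -x)
    (hJo : ∀ x y, inner ℝ (J x) (J y) = (inner ℝ x y : ℝ)) {R' : V → V → V → V → ℝ}
    (hR : AlgCurv R') (hK : ∀ x y z w, R' (J x) (J y) z w = R' x y z w)
    (hn : ∀ (n : ℕ) (x y : Fin n → V), ∑ a, ∑ b, R' (x a) (y a) (x b) (y b) ≤ 0)
    {a b : ℝ} (hb : 0 ≤ b) :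
    HermBound a (fun x y z w => R' x y z w - a * one4 x y z w - b * om4 J x y z w) := by
  have hK2 : ∀ x y z w, R' x y (J z) (J w) = R' x y z w := by
    intro x y z w
    rw [← hR.pair x y (J z) (J w), hK, hR.pair]
  have hom : ∀ x y z w, om4 J (J x) (J y) (J z) (J w) = om4 J x y z w := by
    intro x y z w
    simp only [om4, hJo]
  have hvR : ∀ (s : ℝ) (n : ℕ) (x y : Fin n → V), val R' J s x y =
      (1 + s) ^ 2 * ∑ a, ∑ b, R' (x a) (y a) (x b) (y b) := by
    intro s n x y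
    unfold val
    rw [Finset.mul_sum]
    refine Finset.sum_congr rfl fun a _ => ?_
    rw [Finset.mul_sum]
    refine Finset.sum_congr rfl fun b _ => ?_
    rw [hK, hK, hK2]
    ring
  have hlin : ∀ (s : ℝ) (n : ℕ) (x y : Fin n → V),
      val (fun x y z w => R' x y z w - a * one4 x y z w - b * om4 J x y z w) J s x y =
      val (cmp a (Fin.elim0 : Fin 0 → Bil V) (Fin.elim0 : Fin 0 → Bil V)) J s x y +
        (val R' J s x y - b * val (om4 J) J s x y) := by
    intro s n x y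
    unfold val
    simp only [Finset.mul_sum, ← Finset.sum_add_distrib, ← Finset.sum_sub_distrib]
    refine Finset.sum_congr rfl fun a _ => Finset.sum_congr rfl fun b _ => ?_
    simp only [cmp, Finset.univ_eq_empty, Finset.sum_empty]
    ring
  refine ⟨J, 0, 0, Fin.elim0, Fin.elim0, hJ, hJo, ?_, fun k => k.elim0, fun k => k.elim0, ?_, ?_⟩
  · intro x y z w
    simp only [hK, hK2, hom, one4, hJo]
  · intro n x y
    rw [hlin, hvR, val_om4 hJ hJo 1 (by norm_num)]
    have h1 := hn n x y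
    have h2 := val_one4 e J 1 x y
    have h3 := sq_nonneg ((1 + 1) * ∑ a, (inner ℝ (J (x a)) (y a) : ℝ))
    have h4 : 0 ≤ b * (2 * ((1 + 1) * ∑ a, (inner ℝ (J (x a)) (y a) : ℝ)) ^ 2 +
        1 * val one4 J 1 x y) := mul_nonneg hb (by linarith)
    linarith
  · intro n x y
    rw [hlin, hvR, val_om4 hJ hJo (-1) (by norm_num)]
    have h2 := val_one4 e J (-1) x y
    have h4 := mul_nonneg hb h2
    nlinarith

end exa

end Pool.Agent.H36QD
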