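import Pool.Agent.H36QD.Gau
import Pool.Agent.H36QD.Bas
import Pool.Agent.W669.HD.Sq

set_option autoImplicit false

/-!
# The Hopf sign for curvature tensors of quaternionic type
-/

namespace Pool.Agent.H36QD

open Finset Pool.Agent.W666.GB Pool.Agent.W669.HD

section lift

variable {V : Type} [NormedAddCommGroup V] [InnerProductSpace ℝ V] {m : ℕ}

/-- the integrand from a lift of the components -/
theorem gbc_lift (e : OrthonormalBasis (Fin m × Bool) ℝ V) (R : V → V → V → V → ℝ)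
    (C : Fin m × Bool → Fin m × Bool → Fin m × Bool → Fin m × Bool → ℝ)
    (h : ∀ i j k l, -R (e i) (e j) (e k) (e l) = C i k j l - C i l j k) :
    (-1) ^ m * gbc e R = 1 / ((4 * Real.pi) ^ m * m.factorial) * Yf C := by
  have h1 := lift_sum (B := Fin m) C (fun i j k l => -R (e i) (e j) (e k) (e l)) h
  rw [Fintype.card_fin] at h1
  have h2 : ∀ σ τ : Equiv.Perm (Fin m × Bool), ∏ b : Fin m,
      -R (e (σ (b, false))) (e (σ (b, true))) (e (τ (b, false))) (e (τ (b, true))) =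
      (-1) ^ m * ∏ b : Fin m,
        R (e (σ (b, false))) (e (σ (b, true))) (e (τ (b, false))) (e (τ (b, true))) := by
    intro σ τ
    rw [Finset.prod_neg, Finset.card_univ, Fintype.card_fin]
  have h3 : (-1) ^ m * gbc e R = 1 / ((8 * Real.pi) ^ m * m.factorial) *
      (2 ^ m * Yf C) := by
    rw [← h1, gbc]
    simp only [h2, sn, Finset.mul_sum]
    refine Finset.sum_congr rfl fun σ _ => Finset.sum_congr rfl fun τ _ => ?_
    ring
  rw [h3]
  have h8 : (8 * Real.pi) ^ m = 2 ^ m * (4 * Real.pi) ^ m := by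
    rw [← mul_pow]
    congr 1
    ring
  have hπ := Real.pi_pos
  rw [h8]
  field_simp

end lift

section quat

variable {V : Type} [NormedAddCommGroup V] [InnerProductSpace ℝ V] {m : ℕ}

/-- the tensor `b(x,z) b(y,w) - b(x,w) b(y,z)` of a bilinear form -/
def kn (b : Bil V) (x y z w : V) : ℝ := b x z * b y w - b x w * b y z

/-- **The sign for curvature tensors of quaternionic type.** -/
theorem quat_main (e : OrthonormalBasis (Fin m × Bool) ℝ V) (J : V →ₗ[ℝ] V)
    (hJ : ∀ x, J (J x) = -x) {ι κ : Type} [Fintype ι] [Fintype κ] (B : ι → Bil V) (D : κ → Bil V)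
    (hB : ∀ k x y, B k (J x) (J y) = B k x y) (hD : ∀ k x y, D k (J x) (J y) = - D k x y)
    (R : V → V → V → V → ℝ)
    (hR : ∀ x y z w, R x y z w = ∑ k, kn (D k) x y z w - ∑ k, kn (B k) x y z w) :
    0 ≤ (-1) ^ m * gbc e R ∧ (0 < (-1) ^ m * gbc e R ↔
      ∃ (ζ : ι → ℝ) (ξ : κ → ℝ), CNondeg (∑ k, ζ k • B k) (∑ k, ξ k • D k)) := by
  classical
  set ω : ι ⊕ κ → ℂ := Sum.elim (fun _ => 1) (fun _ => Complex.I) with hω
  set w : ι ⊕ κ → ℝ := Sum.elim (fun _ => 1) (fun _ => -1) with hw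
  set BB : ι ⊕ κ → Fin m × Bool → Fin m × Bool → ℝ :=
    Sum.elim (fun k i j => B k (e i) (e j)) (fun k i j => D k (e i) (e j)) with hBB
  have hww : ∀ k, ω k ^ 2 = (w k : ℂ) := by
    rintro (k | k)
    · simp [hω, hw]
    · simp [hω, hw]
  have hmat : ∀ ζ : ι ⊕ κ → ℝ, (Matrix.of fun i j => ∑ k, (ζ k : ℂ) * ω k * (BB k i j : ℂ)) =
      cmat e.toBasis (∑ k, ζ (Sum.inl k) • B k) (∑ k, ζ (Sum.inr k) • D k) := by
    intro ζ
    ext i j
    simp only [Matrix.of_apply, cmat, Fintype.sum_sum_type, hω, hBB, Sum.elim_inl, Sum.elim_inr,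
      LinearMap.sum_apply, LinearMap.smul_apply, smul_eq_mul, OrthonormalBasis.coe_toBasis]
    push_cast
    rw [Finset.mul_sum]
    congr 1
    · exact Finset.sum_congr rfl fun k _ => by ring
    · exact Finset.sum_congr rfl fun k _ => by ring
  have hdet : ∀ (ζ : ι → ℝ) (ξ : κ → ℝ), ∃ r : ℝ, 0 ≤ r ∧
      (cmat e.toBasis (∑ k, ζ k • B k) (∑ k, ξ k • D k)).det = r := by
    intro ζ ξ
    refine cmat_nonneg e.toBasis J hJ _ _ (fun x y => ?_) (fun x y => ?_)
    · simp only [LinearMap.sum_apply, LinearMap.smul_apply, hB]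
    · simp only [LinearMap.sum_apply, LinearMap.smul_apply, hD, smul_neg, Finset.sum_neg_distrib]
  have h1 := Yf_sign ω w hww BB (fun ζ => by
    obtain ⟨r, hr, hr'⟩ := hdet (fun k => ζ (Sum.inl k)) (fun k => ζ (Sum.inr k))
    rw [hmat, hr', Complex.ofReal_re]
    exact hr)
  rw [gbc_lift e R (fun a b c d => ∑ k, w k * (BB k a b * BB k c d)) (fun i j k l => by
    rw [hR]
    simp only [kn, Fintype.sum_sum_type, hw, hBB, Sum.elim_inl, Sum.elim_inr,
      Finset.sum_sub_distrib, one_mul, neg_mul, Finset.sum_neg_distrib]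
    ring)]
  have hπ := Real.pi_pos
  have h2 : 0 < 1 / ((4 * Real.pi) ^ m * (m.factorial : ℝ)) := by positivity
  refine ⟨mul_nonneg h2.le h1.1, ?_⟩
  rw [mul_pos_iff_of_pos_left h2, h1.2]
  constructor
  · rintro ⟨ζ, hζ⟩
    refine ⟨fun k => ζ (Sum.inl k), fun k => ζ (Sum.inr k), ?_⟩
    rw [← cmat_nondeg e.toBasis]
    rw [hmat] at hζ
    intro h0
    rw [h0] at hζ
    simp at hζ
  · rintro ⟨ζ, ξ, hn⟩
    refine ⟨Sum.elim ζ ξ, ?_⟩
    rw [hmat]
    simp only [Sum.elim_inl, Sum.elim_inr]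
    obtain ⟨r, hr, hr'⟩ := hdet ζ ξ
    rw [← cmat_nondeg e.toBasis, hr'] at hn
    rw [hr', Complex.ofReal_re]
    refine lt_of_le_of_ne hr fun h => hn ?_
    rw [← h, Complex.ofReal_zero]

end quat

end Pool.Agent.H36QD
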