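import Pool.Agent.H36QD.Rot
import Pool.Agent.H36QD.Main

set_option autoImplicit false

/-!
# The lower bound for the Gauss–Bonnet–Chern integrand of quaternionic type
-/

namespace Pool.Agent.H36QD

open Finset MeasureTheory Pool.Agent.Y489.SM
open Pool.Agent.W666.GB

section yf

variable {K : Type} [Fintype K] [DecidableEq K] {m : ℕ}

theorem mu_even (m : ℕ) : mu (2 * m) * (2 ^ m * m.factorial) = (2 * m).factorial * mu 0 := by
  induction m with
  | zero => simp
  | succ m ih =>
    rw [show 2 * (m + 1) = 2 * m + 2 by ring, mu_add_two, Nat.factorial_succ, Nat.factorial_succ,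
      Nat.factorial_succ]
    push_cast
    linear_combination ((2 * m + 1) * (2 * (m + 1)) : ℝ) * ih

/-- the constant in the contraction formula -/
theorem LW_const (k₀ : K) (C : ℝ)
    (hL : ∀ F : (Fin m × Bool → K) → ℝ, Sy F → LW F = C * ∑ α : Fin m → K, F (fun x => α x.1)) :
    C * (2 ^ m * m.factorial) = (2 * m).factorial * mu 0 ^ Fintype.card K := by
  classical
  have hcard : Fintype.card (Fin m × Bool) = 2 * m := by
    rw [Fintype.card_prod, Fintype.card_fin, Fintype.card_bool, mul_comm]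
  have h1 := hL (fun β => if ∀ j, β j = k₀ then 1 else 0) (by
    intro π β
    have : (∀ j, β (π j) = k₀) ↔ ∀ j, β j = k₀ :=
      ⟨fun h j => by simpa using h (π.symm j), fun h j => h (π j)⟩
    simp only [this])
  have h2 : ∑ α : Fin m → K, (if ∀ j : Fin m × Bool, α j.1 = k₀ then (1 : ℝ) else 0) = 1 := by
    rw [Finset.sum_eq_single (fun _ => k₀)]
    · simp
    · intro β _ hβ
      rw [if_neg]
      intro hn
      exact hβ (funext fun b => hn (b, true))
    · intro hn
      exact absurd (Finset.mem_univ _) hn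
  have h3 : LW (fun β : Fin m × Bool → K => if ∀ j, β j = k₀ then (1 : ℝ) else 0) =
      mu (2 * m) * mu 0 ^ (Fintype.card K - 1) := by
    unfold LW
    rw [Finset.sum_eq_single (fun _ => k₀)]
    · simp only [implies_true, if_true, mul_one]
      unfold wick
      rw [← Finset.mul_prod_erase univ _ (Finset.mem_univ k₀)]
      congr 1
      · congr 1
        unfold cnt
        simp [hcard, mul_comm]
      · rw [Finset.prod_congr rfl (g := fun _ => mu 0), Finset.prod_const,
          Finset.card_erase_of_mem (Finset.mem_univ k₀), Finset.card_univ]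
        intro k hk
        congr 1
        unfold cnt
        rw [Finset.card_eq_zero, Finset.filter_eq_empty_iff]
        intro j _ h
        exact (Finset.ne_of_mem_erase hk) h.symm
    · intro β _ hβ
      beta_reduce
      rw [if_neg, mul_zero]
      intro hn
      exact hβ (funext hn)
    · intro hn
      exact absurd (Finset.mem_univ _) hn
  rw [h2, h3, mul_one] at h1
  have hK : 0 < Fintype.card K := Fintype.card_pos_iff.2 ⟨k₀⟩
  rw [← h1]
  have h4 : mu 0 ^ Fintype.card K = mu 0 * mu 0 ^ (Fintype.card K - 1) := by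
    rw [← pow_succ']
    congr 1
    omega
  rw [h4]
  linear_combination (mu 0 ^ (Fintype.card K - 1)) * mu_even m

/-- **The lower bound for the double alternating form.** -/
theorem Yf_lower (ω : K → ℂ) (w : K → ℝ) (hw : ∀ k, ω k ^ 2 = (w k : ℂ))
    (B : K → Fin m × Bool → Fin m × Bool → ℝ)
    (H : ∀ ζ : K → ℝ, 0 ≤
      (Matrix.det (Matrix.of fun i j => ∑ k, (ζ k : ℂ) * ω k * (B k i j : ℂ))).re)
    (u : K → ℝ) (hu : ∑ k, u k ^ 2 = 1) :
    2 ^ m * (m.factorial : ℝ) ^ 2 *
      (Matrix.det (Matrix.of fun i j => ∑ k, (u k : ℂ) * ω k * (B k i j : ℂ))).re ≤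
    Yf (fun a b c d => ∑ k, w k * (B k a b * B k c d)) := by
  rcases isEmpty_or_nonempty K with hK | ⟨⟨k₀⟩⟩
  · rw [Finset.univ_eq_empty, Finset.sum_empty] at hu
    exact absurd hu zero_ne_one
  have hcard : Fintype.card (Fin m × Bool) = 2 * m := by
    rw [Fintype.card_prod, Fintype.card_fin, Fintype.card_bool, mul_comm]
  obtain ⟨C, hC, hL⟩ := LW_pairs (K := K) m
  have h2 := hL (FF ω B) (FF_sy ω B)
  rw [Yf_eq ω w hw B] at h2
  have hfac : (0 : ℝ) < (2 * m).factorial := by exact_mod_cast Nat.factorial_pos _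
  have hpos : ∀ ζ : K → ℝ, 0 ≤ frm (FF ω B) ζ := by
    intro ζ
    unfold frm
    rw [FF_poly, hcard]
    exact mul_nonneg hfac.le (H ζ)
  have h3 := wick_lower (FF ω B) m hcard hpos u hu
  unfold LW at h2
  rw [h2] at h3
  unfold frm at h3
  rw [FF_poly, hcard] at h3
  have h4 := LW_const k₀ C hL
  have h5 : C * (2 ^ m * (m.factorial : ℝ) ^ 2 *
      (Matrix.det (Matrix.of fun i j => ∑ k, (u k : ℂ) * ω k * (B k i j : ℂ))).re) ≤
      C * Yf (fun a b c d => ∑ k, w k * (B k a b * B k c d)) := by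
    refine le_trans (le_of_eq ?_) h3
    linear_combination ((m.factorial : ℝ) *
      (Matrix.det (Matrix.of fun i j => ∑ k, (u k : ℂ) * ω k * (B k i j : ℂ))).re) * h4
  exact le_of_mul_le_mul_left h5 hC

end yf

section quat

variable {V : Type} [NormedAddCommGroup V] [InnerProductSpace ℝ V] {m : ℕ}

/-- **The lower bound for curvature tensors of quaternionic type.** -/
theorem quat_bound (e : OrthonormalBasis (Fin m × Bool) ℝ V) (J : V →ₗ[ℝ] V)
    (hJ : ∀ x, J (J x) = -x) {ι κ : Type} [Fintype ι] [Fintype κ] (B : ι → Bil V) (D : κ → Bil V)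
    (hB : ∀ k x y, B k (J x) (J y) = B k x y) (hD : ∀ k x y, D k (J x) (J y) = - D k x y)
    (R : V → V → V → V → ℝ)
    (hR : ∀ x y z w, R x y z w = ∑ k, kn (D k) x y z w - ∑ k, kn (B k) x y z w)
    (ζ : ι → ℝ) (ξ : κ → ℝ) (hu : ∑ k, ζ k ^ 2 + ∑ k, ξ k ^ 2 = 1) :
    (m.factorial : ℝ) / (2 * Real.pi) ^ m *
      (cmat e (∑ k, ζ k • B k) (∑ k, ξ k • D k)).det.re ≤ (-1) ^ m * gbc e R := by
  classical
  set ω : ι ⊕ κ → ℂ := Sum.elim (fun _ => 1) (fun _ => Complex.I) with hω
  set w : ι ⊕ κ → ℝ := Sum.elim (fun _ => 1) (fun _ => -1) with hw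
  set BB : ι ⊕ κ → Fin m × Bool → Fin m × Bool → ℝ :=
    Sum.elim (fun k i j => B k (e i) (e j)) (fun k i j => D k (e i) (e j)) with hBB
  have hww : ∀ k, ω k ^ 2 = (w k : ℂ) := by
    rintro (k | k)
    · simp [hω, hw]
    · simp [hω, hw]
  have hmat : ∀ ζ : ι ⊕ κ → ℝ, (Matrix.of fun i j => ∑ k, (ζ k : ℂ) * ω k * (BB k i j : ℂ)) =
      cmat e (∑ k, ζ (Sum.inl k) • B k) (∑ k, ζ (Sum.inr k) • D k) := by
    intro ζ
    ext i j
    simp only [Matrix.of_apply, cmat, Fintype.sum_sum_type, hω, hBB, Sum.elim_inl, Sum.elim_inr,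
      LinearMap.sum_apply, LinearMap.smul_apply, smul_eq_mul]
    push_cast
    rw [Finset.mul_sum]
    congr 1
    · exact Finset.sum_congr rfl fun k _ => by ring
    · exact Finset.sum_congr rfl fun k _ => by ring
  have hdet : ∀ (ζ : ι → ℝ) (ξ : κ → ℝ), ∃ r : ℝ, 0 ≤ r ∧
      (cmat e (∑ k, ζ k • B k) (∑ k, ξ k • D k)).det = r := by
    intro ζ ξ
    have h := cmat_nonneg e.toBasis J hJ (∑ k, ζ k • B k) (∑ k, ξ k • D k) (fun x y => by
      simp only [LinearMap.sum_apply, LinearMap.smul_apply, hB]) (fun x y => by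
      simp only [LinearMap.sum_apply, LinearMap.smul_apply, hD, smul_neg, Finset.sum_neg_distrib])
    rwa [OrthonormalBasis.coe_toBasis] at h
  have h1 := Yf_lower ω w hww BB (fun ζ => by
    obtain ⟨r, hr, hr'⟩ := hdet (fun k => ζ (Sum.inl k)) (fun k => ζ (Sum.inr k))
    rw [hmat, hr', Complex.ofReal_re]
    exact hr) (Sum.elim ζ ξ) (by
      rw [Fintype.sum_sum_type]
      exact hu)
  rw [hmat] at h1
  simp only [Sum.elim_inl, Sum.elim_inr] at h1
  rw [gbc_lift e R (fun a b c d => ∑ k, w k * (BB k a b * BB k c d)) (fun i j k l => by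
    rw [hR]
    simp only [kn, Fintype.sum_sum_type, hw, hBB, Sum.elim_inl, Sum.elim_inr,
      Finset.sum_sub_distrib, one_mul, neg_mul, Finset.sum_neg_distrib]
    ring)]
  have hπ := Real.pi_pos
  have h2 : 0 < 1 / ((4 * Real.pi) ^ m * (m.factorial : ℝ)) := by positivity
  have h3 := mul_le_mul_of_nonneg_left h1 h2.le
  refine le_trans (le_of_eq ?_) h3
  have h4 : (4 * Real.pi) ^ m = 2 ^ m * (2 * Real.pi) ^ m := by
    rw [← mul_pow]
    congr 1
    ring
  rw [h4]
  have h5 : (2 : ℝ) ^ m ≠ 0 := by positivity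
  have h6 : (2 * Real.pi) ^ m ≠ 0 := by positivity
  have h7 : (m.factorial : ℝ) ≠ 0 := by positivity
  field_simp

end quat

end Pool.Agent.H36QD
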