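import Pool.Agent.H36QD.Herm
import Pool.Agent.H36QD.Low

set_option autoImplicit false

/-!
# The criterion and the examples
-/

namespace Pool.Agent.H36QD

open Finset Pool.Agent.W666.GB Pool.Agent.W669.HD

section defs

variable {V : Type} [NormedAddCommGroup V] [InnerProductSpace ℝ V]

/-- `R = - ∑ B_k ∧ B_k + ∑ D_k ∧ D_k` with forms `B_k` invariant and `D_k` anti-invariant under a
complex structure `J` (not necessarily orthogonal). -/
def QuatType (R : V → V → V → V → ℝ) : Prop :=
  ∃ (J : V →ₗ[ℝ] V) (p q : ℕ) (B : Fin p → Bil V) (D : Fin q → Bil V),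
    (∀ x, J (J x) = -x) ∧ (∀ k x y, B k (J x) (J y) = B k x y) ∧
    (∀ k x y, D k (J x) (J y) = - D k x y) ∧
    ∀ x y z w, R x y z w = ∑ k, kn (D k) x y z w - ∑ k, kn (B k) x y z w

/-- the comparison tensor `- c - ∑ G_k ∧ G_k + ∑ H_k ∧ H_k` -/
noncomputable def cmp (c : ℝ) {p q : ℕ} (G : Fin p → Bil V) (H : Fin q → Bil V) (x y z w : V) : ℝ :=
  ∑ k, kn (H k) x y z w - ∑ k, kn (G k) x y z w - c * one4 x y z w

/-- The criterion: for some orthogonal complex structure `J` the tensor `R` is invariant under `J`,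
and for some symmetric forms `G_k` invariant and `H_k` anti-invariant under `J`, the tensor
`Q = - c - ∑ G_k ∧ G_k + ∑ H_k ∧ H_k` satisfies `R ≤ Q` on the `J`-invariant bivectors and `R ≥ Q` on
the `J`-anti-invariant bivectors. -/
def HermBound (c : ℝ) (R : V → V → V → V → ℝ) : Prop :=
  ∃ (J : V →ₗ[ℝ] V) (p q : ℕ) (G : Fin p → Bil V) (H : Fin q → Bil V),
    (∀ x, J (J x) = -x) ∧ (∀ x y, inner ℝ (J x) (J y) = (inner ℝ x y : ℝ)) ∧
    (∀ x y z w, R (J x) (J y) (J z) (J w) = R x y z w) ∧
    (∀ k x y, G k x y = G k y x ∧ G k (J x) (J y) = G k x y) ∧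
    (∀ k x y, H k x y = H k y x ∧ H k (J x) (J y) = - H k x y) ∧
    (∀ (n : ℕ) (x y : Fin n → V), val R J 1 x y ≤ val (cmp c G H) J 1 x y) ∧
    ∀ (n : ℕ) (x y : Fin n → V), val (cmp c G H) J (-1) x y ≤ val R J (-1) x y

end defs

section curv

variable {V : Type} [NormedAddCommGroup V] [InnerProductSpace ℝ V]

theorem kn_curv {b : Bil V} (hb : ∀ x y, b x y = b y x) : AlgCurv (kn b) where
  add x x' y z w := by simp only [kn, map_add, LinearMap.add_apply]; ring
  smul t x y z w := by simp only [kn, map_smul, LinearMap.smul_apply, smul_eq_mul]; ring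
  anti x y z w := by simp only [kn]; ring
  pair x y z w := by
    simp only [kn]
    rw [hb z x, hb w y, hb z y, hb w x]
    ring
  bianchi x y z w := by
    simp only [kn]
    rw [hb y x, hb z x, hb z y]
    ring

theorem one4_curv : AlgCurv (one4 : V → V → V → V → ℝ) where
  add x x' y z w := by simp only [one4, inner_add_left]; ring
  smul t x y z w := by simp only [one4, inner_smul_left, conj_trivial]; ring
  anti x y z w := by simp only [one4]; ring
  pair x y z w := by
    simp only [one4]
    rw [real_inner_comm x z, real_inner_comm y w, real_inner_comm y z, real_inner_comm x w]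
    ring
  bianchi x y z w := by
    simp only [one4]
    rw [real_inner_comm x y, real_inner_comm x z, real_inner_comm y z]
    ring

theorem curv_lin {A B : V → V → V → V → ℝ} (hA : AlgCurv A) (hB : AlgCurv B) (s t : ℝ) :
    AlgCurv (fun x y z w => s * A x y z w + t * B x y z w) where
  add x x' y z w := by rw [hA.add, hB.add]; ring
  smul r x y z w := by rw [hA.smul, hB.smul]; ring
  anti x y z w := by rw [hA.anti x y, hB.anti x y]; ring
  pair x y z w := by rw [hA.pair x y, hB.pair x y]
  bianchi x y z w := by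
    linear_combination s * hA.bianchi x y z w + t * hB.bianchi x y z w

theorem curv_zero : AlgCurv (fun _ _ _ _ : V => (0 : ℝ)) where
  add _ _ _ _ _ := by simp
  smul _ _ _ _ _ := by simp
  anti _ _ _ _ := by simp
  pair _ _ _ _ := rfl
  bianchi _ _ _ _ := by simp

theorem curv_sum {n : ℕ} {A : Fin n → V → V → V → V → ℝ} (hA : ∀ k, AlgCurv (A k)) :
    AlgCurv (fun x y z w => ∑ k, A k x y z w) where
  add x x' y z w := by simp only [(hA _).add, Finset.sum_add_distrib]
  smul r x y z w := by simp only [(hA _).smul, Finset.mul_sum]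
  anti x y z w := by
    rw [← Finset.sum_neg_distrib]
    exact Finset.sum_congr rfl fun k _ => (hA k).anti x y z w
  pair x y z w := Finset.sum_congr rfl fun k _ => (hA k).pair x y z w
  bianchi x y z w := by
    rw [← Finset.sum_add_distrib, ← Finset.sum_add_distrib]
    exact Finset.sum_eq_zero fun k _ => (hA k).bianchi x y z w

theorem cmp_curv (c : ℝ) {p q : ℕ} {G : Fin p → Bil V} {H : Fin q → Bil V}
    (hG : ∀ k x y, G k x y = G k y x) (hH : ∀ k x y, H k x y = H k y x) :
    AlgCurv (cmp c G H) := by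
  have h1 := curv_sum (A := fun k => kn (G k)) fun k => kn_curv (hG k)
  have h2 := curv_sum (A := fun k => kn (H k)) fun k => kn_curv (hH k)
  have h3 := curv_lin (curv_lin h2 h1 1 (-1)) (one4_curv (V := V)) 1 (-c)
  convert h3 using 1
  funext x y z w
  simp only [cmp]
  ring

theorem val_sub (A B : V → V → V → V → ℝ) (J : V →ₗ[ℝ] V) (s : ℝ) {n : ℕ} (x y : Fin n → V) :
    val (fun x y z w => A x y z w - B x y z w) J s x y = val A J s x y - val B J s x y := by
  unfold val
  rw [← Finset.sum_sub_distrib]
  refine Finset.sum_congr rfl fun a _ => ?_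
  rw [← Finset.sum_sub_distrib]
  refine Finset.sum_congr rfl fun b _ => ?_
  ring

end curv

section crit

variable {V : Type} [NormedAddCommGroup V] [InnerProductSpace ℝ V] {m : ℕ}

/-- the scalar product as a bilinear form -/
noncomputable def ip (V : Type) [NormedAddCommGroup V] [InnerProductSpace ℝ V] : Bil V := innerₗ V

theorem ip_apply (x y : V) : ip V x y = inner ℝ x y := rfl

/-- the decomposition given by the criterion -/
theorem herm_quat (e : OrthonormalBasis (Fin m × Bool) ℝ V) {R : V → V → V → V → ℝ}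
    (hR : AlgCurv R) {c : ℝ} (hc : 0 ≤ c) (h : HermBound c R) :
    ∃ (J : V →ₗ[ℝ] V) (p q : ℕ) (B : Option (Fin p) → Bil V) (D : Fin q → Bil V),
      (∀ x, J (J x) = -x) ∧ (∀ k x y, B k (J x) (J y) = B k x y) ∧
      (∀ k x y, D k (J x) (J y) = - D k x y) ∧ B none = √c • ip V ∧
      ∀ x y z w, R x y z w = ∑ k, kn (D k) x y z w - ∑ k, kn (B k) x y z w := by
  obtain ⟨J, p, q, G, H, hJ, hJo, hinv, hG, hH, hu, hl⟩ := h
  have hone : ∀ x y z w : V, one4 (J x) (J y) (J z) (J w) = one4 x y z w := by
    intro x y z w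
    simp only [one4, hJo]
  have hcinv : ∀ x y z w, cmp c G H (J x) (J y) (J z) (J w) = cmp c G H x y z w := by
    intro x y z w
    simp only [cmp, hone, kn, (hG _ _ _).2, (hH _ _ _).2]
    congr 2
    exact Finset.sum_congr rfl fun k _ => by ring
  have hC := cmp_curv c (fun k x y => (hG k x y).1) (fun k x y => (hH k x y).1)
  have hT : AlgCurv (fun x y z w => cmp c G H x y z w - R x y z w) := by
    have := curv_lin hC hR 1 (-1)
    convert this using 1
    funext x y z w
    ring
  obtain ⟨p', q', N, M, hN, hM, hNM⟩ := herm_decomp e.toBasis hT J hJ (fun x y z w => by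
    rw [hcinv, hinv]) (fun n x y => by
      rw [val_sub]
      linarith [hu n x y]) (fun n x y => by
      rw [val_sub]
      linarith [hl n x y])
  have hs : √c * √c = c := Real.mul_self_sqrt hc
  refine ⟨J, p + p', q + q', fun o => o.elim (√c • ip V) (Fin.append G N), Fin.append H M, hJ,
    ?_, ?_, rfl, ?_⟩
  · rintro (_ | k) x y
    · simp only [Option.elim_none, LinearMap.smul_apply, ip_apply, hJo]
    · simp only [Option.elim_some]
      refine Fin.addCases (fun k => ?_) (fun k => ?_) k
      · rw [Fin.append_left]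
        exact (hG k x y).2
      · rw [Fin.append_right]
        exact hN k x y
  · intro k x y
    refine Fin.addCases (fun k => ?_) (fun k => ?_) k
    · rw [Fin.append_left]
      exact (hH k x y).2
    · rw [Fin.append_right]
      exact hM k x y
  · intro x y z w
    have h1 := hNM x y z w
    rw [Fintype.sum_option, Fin.sum_univ_add, Fin.sum_univ_add]
    simp only [Option.elim_none, Option.elim_some, Fin.append_left, Fin.append_right]
    have h2 : kn (√c • ip V) x y z w = c * one4 x y z w := by
      simp only [kn, LinearMap.smul_apply, smul_eq_mul, ip_apply, one4]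
      linear_combination (inner ℝ x z * inner ℝ y w - inner ℝ x w * inner ℝ y z : ℝ) * hs
    rw [h2]
    simp only [cmp] at h1
    linarith

/-- **The criterion.** -/
theorem herm_bound (e : OrthonormalBasis (Fin m × Bool) ℝ V) {R : V → V → V → V → ℝ}
    (hR : AlgCurv R) {c : ℝ} (hc : 0 ≤ c) (h : HermBound c R) :
    (m.factorial : ℝ) * (c / (2 * Real.pi)) ^ m ≤ (-1) ^ m * gbc e R := by
  classical
  obtain ⟨J, p, q, B, D, hJ, hB, hD, hnone, hRR⟩ := herm_quat e hR hc h
  have h1 := quat_bound e J hJ B D hB hD R hRR (fun k => if k = none then 1 else 0)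
    (fun _ => 0) (by simp)
  have h2 : cmat e (∑ k, (if k = none then (1 : ℝ) else 0) • B k) (∑ k, (0 : ℝ) • D k) =
      ((√c : ℝ) : ℂ) • (1 : Matrix (Fin m × Bool) (Fin m × Bool) ℂ) := by
    ext i j
    have e1 : (∑ k, (if k = none then (1 : ℝ) else 0) • B k) = √c • ip V := by
      rw [Finset.sum_eq_single none]
      · rw [if_pos rfl, one_smul, hnone]
      · intro k _ hk
        rw [if_neg hk, zero_smul]
      · intro h
        exact absurd (mem_univ _) h
    simp only [cmat, Matrix.of_apply, Matrix.smul_apply, Matrix.one_apply, smul_eq_mul]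
    rw [e1]
    simp only [zero_smul, Finset.sum_const_zero, LinearMap.zero_apply, LinearMap.smul_apply,
      ip_apply, smul_eq_mul, Complex.ofReal_zero, mul_zero, add_zero]
    rw [orthonormal_iff_ite.1 e.orthonormal i j]
    split_ifs <;> simp
  rw [h2, Matrix.det_smul, Matrix.det_one, mul_one, Fintype.card_prod, Fintype.card_fin,
    Fintype.card_bool, mul_comm m 2, pow_mul, ← Complex.ofReal_pow, Real.sq_sqrt hc,
    ← Complex.ofReal_pow, Complex.ofReal_re] at h1
  refine le_trans (le_of_eq ?_) h1
  rw [div_pow]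
  ring

theorem herm_quatType (e : OrthonormalBasis (Fin m × Bool) ℝ V) {R : V → V → V → V → ℝ}
    (hR : AlgCurv R) {c : ℝ} (hc : 0 ≤ c) (h : HermBound c R) : QuatType R := by
  obtain ⟨J, p, q, B, D, hJ, hB, hD, _, hRR⟩ := herm_quat e hR hc h
  refine ⟨J, p + 1, q, fun k => B (finSuccEquiv p k), D, hJ, fun k x y => hB _ x y, hD, ?_⟩
  intro x y z w
  rw [hRR, ← Equiv.sum_comp (finSuccEquiv p) (fun k => kn (B k) x y z w)]

theorem quatType_sign (e : OrthonormalBasis (Fin m × Bool) ℝ V) {R : V → V → V → V → ℝ}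
    (h : QuatType R) : 0 ≤ (-1) ^ m * gbc e R := by
  obtain ⟨J, p, q, B, D, hJ, hB, hD, hR⟩ := h
  exact (quat_main e J hJ B D hB hD R hR).1

end crit

end Pool.Agent.H36QD
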