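import Pool.Agent.Y489.SM.Md

set_option autoImplicit false

/-!
# The sign and the vanishing of the double alternating form

(helper36, MP_5a30bb_gt.) The Gaussian mean of a nonnegative form which does not vanish identically
is positive.
-/

namespace Pool.Agent.H36QD

open Finset MeasureTheory Pool.Agent.Y489.SM
open Pool.Agent.W666.GB (sn sn_mul sn_inv sn_mul_self MD Yf)

section wick

variable {K : Type*} [Fintype K] [DecidableEq K] {J : Type*} [Fintype J] [DecidableEq J]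

theorem wick_int (F : (J → K) → ℝ) :
    Integrable (fun ζ : K → ℝ => (∑ β : J → K, (∏ j, ζ (β j)) * F β) * ∏ k, wt (ζ k)) ∧
    ∑ β : J → K, wick β * F β =
      ∫ ζ : K → ℝ, (∑ β : J → K, (∏ j, ζ (β j)) * F β) * ∏ k, wt (ζ k) := by
  have h2 : (fun ζ : K → ℝ => (∑ β : J → K, (∏ j, ζ (β j)) * F β) * ∏ k, wt (ζ k)) =
      fun ζ : K → ℝ => ∑ β : J → K, ((∏ j, ζ (β j)) * ∏ k, wt (ζ k)) * F β := by
    funext ζ
    rw [Finset.sum_mul]
    exact Finset.sum_congr rfl fun β _ => by ring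
  rw [h2]
  refine ⟨integrable_finsetSum _ fun β _ => (integrable_monomial β).mul_const _, ?_⟩
  rw [integral_finsetSum _ fun β _ => (integrable_monomial β).mul_const _]
  refine Finset.sum_congr rfl fun β _ => ?_
  rw [integral_mul_const, integral_monomial]

/-- a nonnegative form which is positive somewhere has positive Gaussian mean -/
theorem wick_pos (F : (J → K) → ℝ)
    (h : ∀ ζ : K → ℝ, 0 ≤ ∑ β : J → K, (∏ j, ζ (β j)) * F β) (ζ₀ : K → ℝ)
    (h0 : 0 < ∑ β : J → K, (∏ j, ζ₀ (β j)) * F β) :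
    0 < ∑ β : J → K, wick β * F β := by
  obtain ⟨hi, he⟩ := wick_int F
  rw [he, integral_pos_iff_support_of_nonneg _ hi]
  · have hc : Continuous fun ζ : K → ℝ => (∑ β : J → K, (∏ j, ζ (β j)) * F β) * ∏ k, wt (ζ k) := by
      unfold wt
      fun_prop
    refine (hc.isOpen_support).measure_pos volume ⟨ζ₀, ?_⟩
    rw [Function.mem_support]
    exact (mul_pos h0 (Finset.prod_pos fun k _ => wt_pos _)).ne'
  · intro ζ
    exact mul_nonneg (h ζ) (Finset.prod_nonneg fun k _ => (wt_pos _).le)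

end wick

section main

variable {K : Type} [Fintype K] [DecidableEq K] {m : ℕ}

theorem Yf_eq (ω : K → ℂ) (w : K → ℝ) (hw : ∀ k, ω k ^ 2 = (w k : ℂ))
    (B : K → Fin m × Bool → Fin m × Bool → ℝ) :
    ∑ α : Fin m → K, FF ω B (fun x => α x.1) =
      Yf (fun a b c d => ∑ k, w k * (B k a b * B k c d)) := by
  rw [Yf_sum]
  refine Finset.sum_congr rfl fun α _ => ?_
  unfold FF
  congr 1
  rw [Fintype.prod_prod_type]
  have h9 : ∀ b : Fin m, ∏ _y : Bool, ω (α b) = (w (α b) : ℂ) := by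
    intro b
    rw [Fintype.prod_bool, ← hw]
    ring
  simp only [h9, ← Complex.ofReal_prod, Complex.ofReal_re]

/-- **The sign of the double alternating form** of `∑ w_k B_k ⊗ B_k`, `ω_k² = w_k`, when the
determinants of `∑ ζ_k ω_k B_k` are nonnegative; it is positive if one determinant is. -/
theorem Yf_sign (ω : K → ℂ) (w : K → ℝ) (hw : ∀ k, ω k ^ 2 = (w k : ℂ))
    (B : K → Fin m × Bool → Fin m × Bool → ℝ)
    (H : ∀ ζ : K → ℝ, 0 ≤
      (Matrix.det (Matrix.of fun i j => ∑ k, (ζ k : ℂ) * ω k * (B k i j : ℂ))).re) :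
    0 ≤ Yf (fun a b c d => ∑ k, w k * (B k a b * B k c d)) ∧
    (0 < Yf (fun a b c d => ∑ k, w k * (B k a b * B k c d)) ↔ ∃ ζ : K → ℝ, 0 <
      (Matrix.det (Matrix.of fun i j => ∑ k, (ζ k : ℂ) * ω k * (B k i j : ℂ))).re) := by
  obtain ⟨C, hC, hL⟩ := LW_pairs (K := K) m
  have h2 := hL (FF ω B) (FF_sy ω B)
  rw [Yf_eq ω w hw B] at h2
  have hfac : (0 : ℝ) < (Fintype.card (Fin m × Bool)).factorial := by
    exact_mod_cast Nat.factorial_pos _
  have hpos : ∀ ζ : K → ℝ, 0 ≤ ∑ β : Fin m × Bool → K, (∏ j, ζ (β j)) * FF ω B β := by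
    intro ζ
    rw [FF_poly]
    exact mul_nonneg hfac.le (H ζ)
  have h3 := wick_nonneg (FF ω B) hpos
  unfold LW at h2
  have hnn : 0 ≤ Yf (fun a b c d => ∑ k, w k * (B k a b * B k c d)) := by
    by_contra hn
    push Not at hn
    nlinarith
  refine ⟨hnn, ?_, ?_⟩
  · intro hY
    by_contra hne
    push Not at hne
    have h4 : ∀ ζ : K → ℝ, ∑ β : Fin m × Bool → K, (∏ j, ζ (β j)) * FF ω B β = 0 := by
      intro ζ
      rw [FF_poly, le_antisymm (hne ζ) (H ζ), mul_zero]
    have h5 := (wick_int (FF ω B)).2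
    simp only [h4, zero_mul, integral_zero] at h5
    rw [h5] at h2
    have := mul_pos hC hY
    linarith
  · rintro ⟨ζ₀, h0⟩
    have h4 := wick_pos (FF ω B) hpos ζ₀ (by
      rw [FF_poly]
      exact mul_pos hfac h0)
    rw [h2] at h4
    exact (pos_iff_pos_of_mul_pos h4).1 hC

end main

end Pool.Agent.H36QD
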