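import Pool.Agent.Y489.SM.Gs
import Pool.Agent.H699R2.Sos

set_option autoImplicit false

/-!
# Gaussian means of nonnegative polynomials in one variable

The Gaussian mean of a nonnegative polynomial of degree at most `2 m` is at least `m!` times its
coefficient of degree `2 m`.
-/

namespace Pool.Agent.H36QD

open MeasureTheory Pool.Agent.Y489.SM Polynomial

/-- the integral against the Gaussian weight -/
noncomputable def EL (p : ℝ[X]) : ℝ := ∫ t, p.eval t * wt t

theorem EL_int (p : ℝ[X]) : Integrable fun t : ℝ => p.eval t * wt t := by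
  have h : (fun t : ℝ => p.eval t * wt t) =
      fun t : ℝ => ∑ i ∈ Finset.range (p.natDegree + 1), p.coeff i * (t ^ i * wt t) := by
    funext t
    rw [eval_eq_sum_range, Finset.sum_mul]
    exact Finset.sum_congr rfl fun i _ => by ring
  rw [h]
  exact integrable_finsetSum _ fun i _ => (integrable_pow_wt i).const_mul _

theorem EL_add (p q : ℝ[X]) : EL (p + q) = EL p + EL q := by
  unfold EL
  rw [← integral_add (EL_int p) (EL_int q)]
  refine integral_congr_ae (Filter.Eventually.of_forall fun t => ?_)
  simp only [eval_add]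
  ring

theorem EL_C (c : ℝ) (p : ℝ[X]) : EL (C c * p) = c * EL p := by
  unfold EL
  rw [← integral_const_mul]
  refine integral_congr_ae (Filter.Eventually.of_forall fun t => ?_)
  simp only [eval_mul, eval_C]
  ring

theorem EL_sub (p q : ℝ[X]) : EL (p - q) = EL p - EL q := by
  have h : p - q = p + C (-1) * q := by simp; ring
  rw [h, EL_add, EL_C]
  ring

theorem EL_nonneg (p : ℝ[X]) (h : ∀ x, 0 ≤ p.eval x) : 0 ≤ EL p :=
  integral_nonneg fun t => mul_nonneg (h t) (wt_pos t).le

theorem EL_pow (n : ℕ) : EL (X ^ n) = mu n := by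
  unfold EL mu
  simp

theorem EL_X_mul (g : ℝ[X]) : EL (X * g) = EL (derivative g) := by
  induction g using Polynomial.induction_on' with
  | add p q hp hq => rw [mul_add, EL_add, derivative_add, EL_add, hp, hq]
  | monomial n a =>
    rw [derivative_monomial, ← C_mul_X_pow_eq_monomial, ← C_mul_X_pow_eq_monomial]
    rw [show X * (C a * X ^ n) = C a * X ^ (n + 1) by ring, EL_C, EL_C, EL_pow, EL_pow, mu_succ]
    ring

/-- the Hermite polynomials -/
noncomputable def He : ℕ → ℝ[X]
  | 0 => 1
  | n + 1 => X * He n - derivative (He n)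

theorem EL_He (n : ℕ) : ∀ g : ℝ[X], EL (He n * g) = EL (derivative^[n] g) := by
  induction n with
  | zero => intro g; simp [He]
  | succ n ih =>
    intro g
    have h : He (n + 1) * g = X * (He n * g) - derivative (He n) * g := by
      rw [He]; ring
    rw [h, EL_sub, EL_X_mul, derivative_mul, EL_add, Function.iterate_succ_apply, ← ih]
    ring

theorem He_deg (n : ℕ) : (He n).natDegree ≤ n ∧ (He n).coeff n = 1 := by
  induction n with
  | zero => simp [He]
  | succ n ih =>
    obtain ⟨h1, h2⟩ := ih
    have h3 : (derivative (He n)).natDegree ≤ n :=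
      (natDegree_derivative_le _).trans (by omega)
    constructor
    · rw [He]
      refine (natDegree_sub_le _ _).trans (max_le ?_ (by omega))
      exact natDegree_mul_le.trans (by rw [natDegree_X]; omega)
    · rw [He, coeff_sub, coeff_X_mul, h2, coeff_eq_zero_of_natDegree_lt (by omega), sub_zero]

theorem EL_iter (m : ℕ) (a : ℝ[X]) (ha : a.natDegree ≤ m) :
    EL (derivative^[m] a) = m.factorial * a.coeff m * mu 0 := by
  have h1 : (derivative^[m] a).natDegree = 0 := by
    have := natDegree_iterate_derivative a m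
    omega
  rw [eq_C_of_natDegree_eq_zero h1, coeff_iterate_derivative, zero_add, Nat.descFactorial_self,
    nsmul_eq_mul, show C ((m.factorial : ℝ) * a.coeff m) = C ((m.factorial : ℝ) * a.coeff m) * X ^ 0
      by simp, EL_C, EL_pow]

theorem EL_sq (m : ℕ) (a : ℝ[X]) (ha : a.natDegree ≤ m) :
    m.factorial * a.coeff m ^ 2 * mu 0 ≤ EL (a ^ 2) := by
  obtain ⟨h1, h2⟩ := He_deg m
  have h3 := EL_nonneg ((a - C (a.coeff m) * He m) ^ 2) (fun x => by
    rw [eval_pow]
    exact sq_nonneg _)
  have h4 : (a - C (a.coeff m) * He m) ^ 2 = a ^ 2 - C (2 * a.coeff m) * (He m * a) +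
      C (a.coeff m ^ 2) * (He m * He m) := by
    simp only [C_mul, C_pow]
    rw [show (C (2 : ℝ) : ℝ[X]) = 2 from rfl]
    ring
  rw [h4, EL_add, EL_sub, EL_C, EL_C, EL_He, EL_He, EL_iter m a ha, EL_iter m _ h1, h2] at h3
  nlinarith

/-- **The Gaussian mean of a nonnegative polynomial.** -/
theorem EL_lower (m : ℕ) (p : ℝ[X]) (hp : p.natDegree ≤ 2 * m) (hn : ∀ x, 0 ≤ p.eval x) :
    m.factorial * p.coeff (2 * m) * mu 0 ≤ EL p := by
  obtain ⟨a, b, hab⟩ := Pool.Agent.H699R2.sos_of_nonneg _ p le_rfl hn
  have hc : ∀ d, a.natDegree ≤ d → b.natDegree ≤ d →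
      p.coeff (2 * d) = a.coeff d ^ 2 + b.coeff d ^ 2 := by
    intro d ha hb
    rw [hab, coeff_add, sq a, sq b, two_mul, coeff_mul_add_eq_of_natDegree_le ha ha,
      coeff_mul_add_eq_of_natDegree_le hb hb]
    ring
  have hd : a.natDegree ≤ m ∧ b.natDegree ≤ m := by
    set d := max a.natDegree b.natDegree with hd
    by_contra hne
    have hdm : m < d := by
      by_contra h
      push Not at h
      exact hne ⟨(le_max_left _ _).trans h, (le_max_right _ _).trans h⟩
    have h1 := hc d (le_max_left _ _) (le_max_right _ _)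
    rw [coeff_eq_zero_of_natDegree_lt (by omega)] at h1
    have ha0 : a.coeff d = 0 := by nlinarith [sq_nonneg (a.coeff d), sq_nonneg (b.coeff d)]
    have hb0 : b.coeff d = 0 := by nlinarith [sq_nonneg (a.coeff d), sq_nonneg (b.coeff d)]
    rcases max_choice a.natDegree b.natDegree with h | h
    · have h2 : a.coeff a.natDegree = 0 := by rw [← h, ← hd]; exact ha0
      have h3 : a = 0 := leadingCoeff_eq_zero.1 h2
      rw [hd, h, h3, natDegree_zero] at hdm
      omega
    · have h2 : b.coeff b.natDegree = 0 := by rw [← h, ← hd]; exact hb0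
      have h3 : b = 0 := leadingCoeff_eq_zero.1 h2
      rw [hd, h, h3, natDegree_zero] at hdm
      omega
  rw [hc m hd.1 hd.2, hab, EL_add]
  have h1 := EL_sq m a hd.1
  have h2 := EL_sq m b hd.2
  nlinarith

end Pool.Agent.H36QD
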