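import Pool.Agent.H36QD.Main

set_option autoImplicit false

/-!
# The operator criterion for curvature tensors invariant under a complex structure
-/

namespace Pool.Agent.H36QD

open Finset Pool.Agent.W666.GB Pool.Agent.W669.HD

section squares

variable {V : Type} [NormedAddCommGroup V] [InnerProductSpace ℝ V]

/-- a form which is linear in the first argument as a linear map -/
def lin1 {K : V → V → V → V → ℝ} (hK : BiForm K) (y z w : V) : V →ₗ[ℝ] ℝ where
  toFun x := K x y z w
  map_add' x x' := hK.add x x' y z w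
  map_smul' t x := hK.smul t x y z w

theorem biform_ext {ι : Type} (b : Module.Basis ι ℝ V) {K L : V → V → V → V → ℝ}
    (hK : BiForm K) (hL : BiForm L)
    (h : ∀ i j k l, K (b i) (b j) (b k) (b l) = L (b i) (b j) (b k) (b l)) (x y z w : V) :
    K x y z w = L x y z w := by
  have s1 : ∀ x j k l, K x (b j) (b k) (b l) = L x (b j) (b k) (b l) := by
    intro x j k l
    have : lin1 hK (b j) (b k) (b l) = lin1 hL (b j) (b k) (b l) := b.ext fun i => h i j k l
    exact LinearMap.congr_fun this x
  have s2 : ∀ x y k l, K x y (b k) (b l) = L x y (b k) (b l) := by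
    intro x y k l
    have : lin1 hK x (b k) (b l) = lin1 hL x (b k) (b l) := b.ext fun i => by
      show K (b i) x (b k) (b l) = L (b i) x (b k) (b l)
      rw [hK.anti x (b i), hL.anti x (b i), s1]
    have h2 := LinearMap.congr_fun this y
    have h3 : K y x (b k) (b l) = L y x (b k) (b l) := h2
    rw [hK.anti y x, hL.anti y x, h3]
  have s3 : ∀ x y z l, K x y z (b l) = L x y z (b l) := by
    intro x y z l
    have : lin1 hK (b l) x y = lin1 hL (b l) x y := b.ext fun i => by
      show K (b i) (b l) x y = L (b i) (b l) x y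
      rw [hK.pair x y (b i) (b l), hL.pair x y (b i) (b l), s2]
    have h3 : K z (b l) x y = L z (b l) x y := LinearMap.congr_fun this z
    rw [← hK.pair x y z (b l), ← hL.pair x y z (b l), h3]
  have : lin1 hK z x y = lin1 hL z x y := b.ext fun i => by
    show K (b i) z x y = L (b i) z x y
    rw [hK.pair x y (b i) z, hL.pair x y (b i) z, hK.a34, hL.a34, s3]
  have h3 : K w z x y = L w z x y := LinearMap.congr_fun this w
  rw [hK.a34 x y w z, hL.a34 x y w z, ← hK.pair x y w z, ← hL.pair x y w z, h3]

/-- a nonnegative form on the bivectors is a sum of squares of skew forms -/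
theorem bil_squares {ι : Type} [Fintype ι] [DecidableEq ι] (b : Module.Basis ι ℝ V)
    {K : V → V → V → V → ℝ} (hK : BiForm K) (hn : OpNonneg K) :
    ∃ (n : ℕ) (N : Fin n → Bil V), (∀ a x y, N a y x = - N a x y) ∧
      ∀ x y z w, K x y z w = ∑ a, N a x y * N a z w := by
  obtain ⟨n, ν, h1, h2⟩ := BiForm.squares (fun i => b i) hK hn
  let N : Fin n → Bil V := fun a => Matrix.toLinearMap₂ b b (Matrix.of (ν a))
  have hN : ∀ a i j, N a (b i) (b j) = ν a i j := by
    intro a i j
    simp [N, Matrix.toLinearMap₂_apply, Finsupp.single_apply]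
  have hskew : ∀ a x y, N a y x = - N a x y := by
    intro a x y
    have h3 : (N a).flip = - N a := by
      refine b.ext fun i => b.ext fun j => ?_
      simp only [LinearMap.flip_apply, LinearMap.neg_apply, hN]
      exact h1 a i j
    have h4 := LinearMap.congr_fun (LinearMap.congr_fun h3 x) y
    simpa using h4
  refine ⟨n, N, hskew, ?_⟩
  refine biform_ext b hK ⟨?_, ?_, ?_, ?_⟩ fun i j k l => by simp only [hN]; exact h2 i j k l
  · intro x x' y z w
    simp only [map_add, LinearMap.add_apply, add_mul, Finset.sum_add_distrib]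
  · intro t x y z w
    simp only [map_smul, LinearMap.smul_apply, smul_eq_mul, Finset.mul_sum, mul_assoc]
  · intro x y z w
    rw [← Finset.sum_neg_distrib]
    exact Finset.sum_congr rfl fun a _ => by rw [hskew a x y]; ring
  · intro x y z w
    exact Finset.sum_congr rfl fun a _ => mul_comm _ _

end squares

section herm

variable {V : Type} [NormedAddCommGroup V] [InnerProductSpace ℝ V]

/-- the tensor of constant curvature one -/
noncomputable def one4 (x y z w : V) : ℝ := inner ℝ x z * inner ℝ y w - inner ℝ x w * inner ℝ y z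

/-- the value of the quadratic form of `K` on the bivector `∑ (x_a ∧ y_a + s J x_a ∧ J y_a)` -/
def val (K : V → V → V → V → ℝ) (J : V →ₗ[ℝ] V) (s : ℝ) {n : ℕ} (x y : Fin n → V) : ℝ :=
  ∑ a, ∑ b, (K (x a) (y a) (x b) (y b) + s * K (x a) (y a) (J (x b)) (J (y b)) +
    s * K (J (x a)) (J (y a)) (x b) (y b) + s ^ 2 * K (J (x a)) (J (y a)) (J (x b)) (J (y b)))

theorem neg_neg2 {K : V → V → V → V → ℝ} (hK : BiForm K) (x y z w : V) :
    K (-x) (-y) z w = K x y z w := by
  rw [show -x = (-1 : ℝ) • x by rw [neg_one_smul], hK.smul, hK.anti (-y) x,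
    show -y = (-1 : ℝ) • y by rw [neg_one_smul], hK.smul, hK.anti x y]
  ring

/-- half the sum over the two orders -/
theorem half_bi {T : V → V → V → V → ℝ} (hT : BiForm T) (J : V →ₗ[ℝ] V)
    (hJ : ∀ x, J (J x) = -x) (hinv : ∀ x y z w, T (J x) (J y) (J z) (J w) = T x y z w) (s t : ℝ) :
    BiForm (fun x y z w => t * (T x y z w + s * T (J x) (J y) z w)) where
  add x x' y z w := by
    simp only [map_add, hT.add]
    ring
  smul r x y z w := by
    simp only [map_smul, hT.smul]
    ring
  anti x y z w := by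
    rw [hT.anti x y, hT.anti (J x) (J y)]
    ring
  pair x y z w := by
    have h1 : T (J z) (J w) x y = T (J x) (J y) z w := by
      rw [← hinv (J z) (J w) x y, hJ, hJ, neg_neg2 hT, hT.pair]
    rw [hT.pair x y z w, h1]

/-- The decomposition of a curvature tensor invariant under `J` which is nonnegative on the
`J`-invariant and nonpositive on the anti-invariant bivectors. -/
theorem herm_decomp {ι : Type} [Fintype ι] [DecidableEq ι] (b : Module.Basis ι ℝ V)
    {T : V → V → V → V → ℝ} (hT : AlgCurv T) (J : V →ₗ[ℝ] V)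
    (hJ : ∀ x, J (J x) = -x) (hinv : ∀ x y z w, T (J x) (J y) (J z) (J w) = T x y z w)
    (hp : ∀ (n : ℕ) (x y : Fin n → V), 0 ≤ val T J 1 x y)
    (hm : ∀ (n : ℕ) (x y : Fin n → V), val T J (-1) x y ≤ 0) :
    ∃ (p q : ℕ) (N : Fin p → Bil V) (M : Fin q → Bil V),
      (∀ k x y, N k (J x) (J y) = N k x y) ∧ (∀ k x y, M k (J x) (J y) = - M k x y) ∧
      ∀ x y z w, T x y z w = ∑ k, kn (N k) x y z w - ∑ k, kn (M k) x y z w := by
  have hB : BiForm T := ⟨hT.add, hT.smul, hT.anti, hT.pair⟩
  have hflip : ∀ x y z w, T x y (J z) (J w) = T (J x) (J y) z w := by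
    intro x y z w
    rw [← hinv x y (J z) (J w), hJ, hJ, ← hB.pair, neg_neg2 hB, hB.pair]
  have hdd : ∀ x y z w, T (J (J x)) (J (J y)) z w = T x y z w := by
    intro x y z w
    rw [hJ, hJ, neg_neg2 hB]
  obtain ⟨p, N, hN1, hN2⟩ := bil_squares b (half_bi hB J hJ hinv 1 (1 / 2)) (by
    intro n x y
    have h := hp n x y
    unfold val at h
    have h1 : ∑ a, ∑ b, (T (x a) (y a) (x b) (y b) + 1 * T (x a) (y a) (J (x b)) (J (y b)) +
        1 * T (J (x a)) (J (y a)) (x b) (y b) +
        1 ^ 2 * T (J (x a)) (J (y a)) (J (x b)) (J (y b))) =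
        4 * ∑ a, ∑ b, (1 / 2) * (T (x a) (y a) (x b) (y b) +
          1 * T (J (x a)) (J (y a)) (x b) (y b)) := by
      rw [Finset.mul_sum]
      refine Finset.sum_congr rfl fun a _ => ?_
      rw [Finset.mul_sum]
      refine Finset.sum_congr rfl fun b _ => ?_
      rw [hinv, hflip]
      ring
    rw [h1] at h
    linarith)
  obtain ⟨q, M, hM1, hM2⟩ := bil_squares b (half_bi hB J hJ hinv (-1) (-1 / 2)) (by
    intro n x y
    have h := hm n x y
    unfold val at h
    have h1 : ∑ a, ∑ b, (T (x a) (y a) (x b) (y b) + -1 * T (x a) (y a) (J (x b)) (J (y b)) +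
        -1 * T (J (x a)) (J (y a)) (x b) (y b) +
        (-1) ^ 2 * T (J (x a)) (J (y a)) (J (x b)) (J (y b))) =
        (-4) * ∑ a, ∑ b, (-1 / 2) * (T (x a) (y a) (x b) (y b) +
          -1 * T (J (x a)) (J (y a)) (x b) (y b)) := by
      rw [Finset.mul_sum]
      refine Finset.sum_congr rfl fun a _ => ?_
      rw [Finset.mul_sum]
      refine Finset.sum_congr rfl fun b _ => ?_
      rw [hinv, hflip]
      ring
    rw [h1] at h
    linarith)
  refine ⟨p, q, N, M, ?_, ?_, ?_⟩
  · intro k x y
    have h3 : ∑ a, (N a (J x) (J y) - N a x y) ^ 2 = 0 := by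
      have h4 : ∑ a, (N a (J x) (J y) - N a x y) ^ 2 =
          ∑ a, N a (J x) (J y) * N a (J x) (J y) - 2 * ∑ a, N a (J x) (J y) * N a x y +
            ∑ a, N a x y * N a x y := by
        rw [Finset.mul_sum, ← Finset.sum_sub_distrib, ← Finset.sum_add_distrib]
        exact Finset.sum_congr rfl fun a _ => by ring
      rw [h4, ← hN2, ← hN2, ← hN2, hinv, hdd, hdd, hflip x y x y]
      ring
    have h5 := (Finset.sum_eq_zero_iff_of_nonneg fun a _ => sq_nonneg _).mp h3 k (mem_univ _)
    have h6 := pow_eq_zero_iff (two_ne_zero) |>.mp h5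
    linarith
  · intro k x y
    have h3 : ∑ a, (M a (J x) (J y) + M a x y) ^ 2 = 0 := by
      have h4 : ∑ a, (M a (J x) (J y) + M a x y) ^ 2 =
          ∑ a, M a (J x) (J y) * M a (J x) (J y) + 2 * ∑ a, M a (J x) (J y) * M a x y +
            ∑ a, M a x y * M a x y := by
        rw [Finset.mul_sum, ← Finset.sum_add_distrib, ← Finset.sum_add_distrib]
        exact Finset.sum_congr rfl fun a _ => by ring
      rw [h4, ← hM2, ← hM2, ← hM2, hinv, hdd, hdd, hflip x y x y]
      ring
    have h5 := (Finset.sum_eq_zero_iff_of_nonneg fun a _ => sq_nonneg _).mp h3 k (mem_univ _)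
    have h6 := pow_eq_zero_iff (two_ne_zero) |>.mp h5
    linarith
  · have hsum : ∀ x y z w, T x y z w = ∑ a, N a x y * N a z w - ∑ a, M a x y * M a z w := by
      intro x y z w
      rw [← hN2, ← hM2]
      ring
    intro x y z w
    have hb := hT.bianchi x y z w
    rw [hsum y z x w, hsum z x y w] at hb
    have e1 : ∑ k, kn (N k) x y z w = - ∑ a, N a y z * N a x w - ∑ a, N a z x * N a y w := by
      rw [← Finset.sum_neg_distrib, ← Finset.sum_sub_distrib]
      refine Finset.sum_congr rfl fun a _ => ?_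
      rw [kn, hN1 a x z]
      ring
    have e2 : ∑ k, kn (M k) x y z w = - ∑ a, M a y z * M a x w - ∑ a, M a z x * M a y w := by
      rw [← Finset.sum_neg_distrib, ← Finset.sum_sub_distrib]
      refine Finset.sum_congr rfl fun a _ => ?_
      rw [kn, hM1 a x z]
      ring
    rw [e1, e2]
    linarith

end herm

end Pool.Agent.H36QD
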