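import Pool.Agent.H36QD.Exa

set_option autoImplicit false

/-!
# The pointwise and the integrated statements
-/

namespace Pool.Agent.H36QD

open Finset Pool.Agent.W666.GB MeasureTheory

/-- the three pointwise statements together -/
theorem quat_all {V : Type} [NormedAddCommGroup V] [InnerProductSpace ℝ V] {m : ℕ}
    (e : OrthonormalBasis (Fin m × Bool) ℝ V) (J : V →ₗ[ℝ] V)
    {ι κ : Type} [Fintype ι] [Fintype κ] (B : ι → Bil V) (D : κ → Bil V)
    (R : V → V → V → V → ℝ) (hJ : ∀ x, J (J x) = -x)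
    (hB : ∀ k x y, B k (J x) (J y) = B k x y) (hD : ∀ k x y, D k (J x) (J y) = - D k x y)
    (hR : ∀ x y z w, R x y z w = ∑ k, kn (D k) x y z w - ∑ k, kn (B k) x y z w) :
    0 ≤ (-1) ^ m * gbc e R ∧
    (0 < (-1) ^ m * gbc e R ↔
      ∃ (ζ : ι → ℝ) (ξ : κ → ℝ), CNondeg (∑ k, ζ k • B k) (∑ k, ξ k • D k)) ∧
    (∀ (ζ : ι → ℝ) (ξ : κ → ℝ), ∑ k, ζ k ^ 2 + ∑ k, ξ k ^ 2 = 1 →
      ∃ r : ℝ, 0 ≤ r ∧ (cmat e (∑ k, ζ k • B k) (∑ k, ξ k • D k)).det = r ∧
        (m.factorial : ℝ) / (2 * Real.pi) ^ m * r ≤ (-1) ^ m * gbc e R) := by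
  have h1 := quat_main e J hJ B D hB hD R hR
  refine ⟨h1.1, h1.2, fun ζ ξ hu => ?_⟩
  have h2 := quat_bound e J hJ B D hB hD R hR ζ ξ hu
  obtain ⟨r, hr, hr'⟩ := cmat_nonneg e.toBasis J hJ (∑ k, ζ k • B k) (∑ k, ξ k • D k)
    (fun x y => by
      simp only [LinearMap.sum_apply, LinearMap.smul_apply, hB]) (fun x y => by
      simp only [LinearMap.sum_apply, LinearMap.smul_apply, hD, smul_neg, Finset.sum_neg_distrib])
  rw [OrthonormalBasis.coe_toBasis] at hr'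
  refine ⟨r, hr, hr', ?_⟩
  rw [hr', Complex.ofReal_re] at h2
  exact h2

theorem field_quat {m : ℕ} {M : Type} [MeasurableSpace M] (μ : Measure M) (K : CurvField m M)
    (h : ∀ p, QuatType (K.R p)) : 0 ≤ (-1) ^ m * ∫ p, K.gb p ∂μ := by
  rw [← integral_const_mul]
  exact integral_nonneg fun p => quatType_sign (K.e p) (h p)

theorem field_herm {m : ℕ} {M : Type} [MeasurableSpace M] (μ : Measure M) (K : CurvField m M)
    (c : M → ℝ) (h : ∀ p, 0 ≤ c p ∧ HermBound (c p) (K.R p)) :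
    0 ≤ (-1) ^ m * ∫ p, K.gb p ∂μ ∧
    (Integrable K.gb μ → Integrable (fun p => c p ^ m) μ →
      ∫ p, (m.factorial : ℝ) * (c p / (2 * Real.pi)) ^ m ∂μ ≤ (-1) ^ m * ∫ p, K.gb p ∂μ) := by
  refine ⟨field_quat μ K fun p => herm_quatType (K.e p) (K.curv p) (h p).1 (h p).2, ?_⟩
  intro hi hc
  rw [← integral_const_mul]
  refine integral_mono ?_ (hi.const_mul _) fun p => herm_bound (K.e p) (K.curv p) (h p).1 (h p).2
  have h2 : (fun p => (m.factorial : ℝ) * (c p / (2 * Real.pi)) ^ m) =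
      fun p => ((m.factorial : ℝ) / (2 * Real.pi) ^ m) * c p ^ m := by
    funext p
    rw [div_pow]
    ring
  rw [h2]
  exact hc.const_mul _

end Pool.Agent.H36QD
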