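import Pool.Agent.H36QD.Gau
import Pool.Agent.H36QD.Her

set_option autoImplicit false

/-!
# The Gaussian mean of a nonnegative form is at least `m!` times its maximum on the sphere
-/

namespace Pool.Agent.H36QD

open Finset MeasureTheory Pool.Agent.Y489.SM

section rot

variable {K : Type} [Fintype K] [DecidableEq K]

/-- an orthogonal matrix with a given unit column -/
theorem exists_orth (u : K → ℝ) (hu : ∑ k, u k ^ 2 = 1) (k₀ : K) :
    ∃ O : Matrix K K ℝ, O.transpose * O = 1 ∧ ∀ k, O k k₀ = u k := by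
  have h1 : Orthonormal ℝ (({k₀} : Set K).domRestrict
      (fun _ : K => (WithLp.toLp 2 u : EuclideanSpace ℝ K))) := by
    rw [orthonormal_iff_ite]
    rintro ⟨i, hi⟩ ⟨j, hj⟩
    rw [Set.mem_singleton_iff] at hi hj
    subst hi
    subst hj
    simp only [if_true]
    rw [EuclideanSpace.inner_eq_star_dotProduct]
    simp only [dotProduct, star_trivial]
    rw [← hu]
    exact Finset.sum_congr rfl fun k _ => (sq _).symm
  obtain ⟨b, hb⟩ := h1.exists_orthonormalBasis_extension_of_card_eq (by simp)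
  refine ⟨Matrix.of fun k l => b l k, ?_, fun k => ?_⟩
  · ext i j
    have h2 := (orthonormal_iff_ite.1 b.orthonormal) i j
    rw [EuclideanSpace.inner_eq_star_dotProduct] at h2
    simp only [dotProduct, star_trivial] at h2
    rw [Matrix.mul_apply, Matrix.one_apply, ← h2]
    exact Finset.sum_congr rfl fun k _ => by
      simp only [Matrix.transpose_apply, Matrix.of_apply]
      exact mul_comm _ _
  · rw [Matrix.of_apply, hb k₀ (Set.mem_singleton _)]

theorem integral_orth (O : Matrix K K ℝ) (hO : O.transpose * O = 1) (f : (K → ℝ) → ℝ) :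
    ∫ ζ : K → ℝ, f (O.mulVec ζ) = ∫ ζ, f ζ := by
  have hdet : |O.det| = 1 := by
    have h1 := congrArg Matrix.det hO
    rw [Matrix.det_mul, Matrix.det_transpose, Matrix.det_one] at h1
    have h2 : |O.det| * |O.det| = 1 := by rw [← abs_mul, h1, abs_one]
    nlinarith [abs_nonneg O.det]
  have hne : O.det ≠ 0 := by
    intro h
    rw [h, abs_zero] at hdet
    exact zero_ne_one hdet
  have hmap := Real.map_matrix_volume_pi_eq_smul_volume_pi hne
  rw [abs_inv, hdet, inv_one, ENNReal.ofReal_one, one_smul] at hmap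
  have hO2 : O * O.transpose = 1 := mul_eq_one_comm.1 hO
  let E : (K → ℝ) ≃L[ℝ] (K → ℝ) :=
    (LinearEquiv.ofLinearMap (Matrix.toLin' O) (Matrix.toLin' O.transpose)
      (by rw [← Matrix.toLin'_mul, hO2, Matrix.toLin'_one])
      (by rw [← Matrix.toLin'_mul, hO, Matrix.toLin'_one])).toContinuousLinearEquiv
  have hmp : MeasurePreserving E (volume : Measure (K → ℝ)) volume :=
    ⟨E.continuous.measurable, hmap⟩
  exact hmp.integral_comp E.toHomeomorph.measurableEmbedding f

end rot

section lower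

open Polynomial

variable {K : Type} [Fintype K] [DecidableEq K] {J : Type} [Fintype J] [DecidableEq J]

/-- the form -/
noncomputable def frm (F : (J → K) → ℝ) (ζ : K → ℝ) : ℝ := ∑ β : J → K, (∏ j, ζ (β j)) * F β

/-- the remaining factors of a monomial -/
def rest (k₀ : K) (β : J → K) (ζ : K → ℝ) : ℝ := ∏ j, if β j = k₀ then 1 else ζ (β j)

omit [DecidableEq J] in
theorem rest_int (k₀ : K) (β : J → K) :
    Integrable (fun ζ : K → ℝ => rest k₀ β ζ * ∏ k, wt (ζ k)) ∧
    ∫ ζ : K → ℝ, rest k₀ β ζ * ∏ k, wt (ζ k) =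
      mu 0 * ∏ k ∈ univ.erase k₀, mu (cnt β k) := by
  have h1 : ∀ ζ : K → ℝ, rest k₀ β ζ * ∏ k, wt (ζ k) =
      ∏ k, ((ζ k) ^ (if k = k₀ then 0 else cnt β k) * wt (ζ k)) := by
    intro ζ
    rw [Finset.prod_mul_distrib]
    congr 1
    unfold rest
    rw [← Finset.prod_fiberwise_of_maps_to (s := univ) (t := univ) (g := β) (fun _ _ => mem_univ _)]
    refine Finset.prod_congr rfl fun k _ => ?_
    split_ifs with hk
    · subst hk
      rw [pow_zero]
      refine Finset.prod_eq_one fun j hj => ?_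
      rw [if_pos (Finset.mem_filter.1 hj).2]
    · rw [cnt, Finset.prod_congr rfl (g := fun _ => ζ k), Finset.prod_const]
      intro j hj
      have h2 := (Finset.mem_filter.1 hj).2
      rw [h2, if_neg hk]
  simp only [h1]
  refine ⟨Integrable.fintype_prod
    (f := fun k (x : ℝ) => x ^ (if k = k₀ then 0 else cnt β k) * wt x)
    (fun k => integrable_pow_wt _), ?_⟩
  rw [integral_fintype_prod_volume_eq_prod
    (fun k (x : ℝ) => x ^ (if k = k₀ then 0 else cnt β k) * wt x),
    ← Finset.mul_prod_erase univ _ (Finset.mem_univ k₀), if_pos rfl]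
  congr 1
  refine Finset.prod_congr rfl fun k hk => ?_
  rw [if_neg (Finset.ne_of_mem_erase hk)]
  rfl

/-- the form in the variable `k₀`, the others being fixed -/
noncomputable def slice (F : (J → K) → ℝ) (k₀ : K) (ζ : K → ℝ) : ℝ[X] :=
  ∑ β : J → K, C (rest k₀ β ζ * F β) * X ^ cnt β k₀

omit [DecidableEq J] in
theorem slice_eval [DecidableEq J] (F : (J → K) → ℝ) (k₀ : K) (ζ : K → ℝ) (t : ℝ) :
    (slice F k₀ ζ).eval t = frm F (Function.update ζ k₀ t) := by
  unfold slice frm
  rw [eval_finsetSum]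
  refine Finset.sum_congr rfl fun β _ => ?_
  rw [eval_mul, eval_C, eval_pow, eval_X]
  have h1 : ∏ j, Function.update ζ k₀ t (β j) = rest k₀ β ζ * t ^ cnt β k₀ := by
    have h2 : t ^ cnt β k₀ = ∏ j, if β j = k₀ then t else 1 := by
      rw [Finset.prod_ite, Finset.prod_const, Finset.prod_const_one, mul_one]
      rfl
    unfold rest
    rw [h2, ← Finset.prod_mul_distrib]
    refine Finset.prod_congr rfl fun j _ => ?_
    by_cases h : β j = k₀
    · rw [h, Function.update_self, if_pos rfl, if_pos rfl, one_mul]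
    · rw [Function.update_of_ne h, if_neg h, if_neg h, mul_one]
  rw [h1]
  ring

omit [Fintype K] [DecidableEq J] in
theorem cnt_le (β : J → K) (k : K) : cnt β k ≤ Fintype.card J := by
  unfold cnt
  exact (Finset.card_filter_le _ _).trans (le_of_eq Finset.card_univ)

omit [Fintype K] [DecidableEq J] in
theorem cnt_eq_card {β : J → K} {k : K} (h : cnt β k = Fintype.card J) : β = fun _ => k := by
  funext j
  have h1 : (univ.filter fun j => β j = k) = univ := by
    apply Finset.eq_univ_of_card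
    exact h
  have h2 : j ∈ univ.filter fun j => β j = k := by rw [h1]; exact mem_univ j
  exact (Finset.mem_filter.1 h2).2

theorem slice_deg (F : (J → K) → ℝ) (k₀ : K) (ζ : K → ℝ) :
    (slice F k₀ ζ).natDegree ≤ Fintype.card J ∧
    (slice F k₀ ζ).coeff (Fintype.card J) = F (fun _ => k₀) := by
  constructor
  · unfold slice
    refine natDegree_sum_le_of_forall_le _ _ fun β _ => ?_
    exact (natDegree_C_mul_X_pow_le _ _).trans (cnt_le β k₀)
  · unfold slice
    rw [finsetSum_coeff, Finset.sum_eq_single (fun _ => k₀)]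
    · have h1 : cnt (fun _ : J => k₀) k₀ = Fintype.card J := by
        unfold cnt
        simp
      have h2 : rest k₀ (fun _ : J => k₀) ζ = 1 := by
        unfold rest
        simp
      rw [coeff_C_mul, h1, coeff_X_pow_self, h2]
      ring
    · intro β _ hβ
      rw [coeff_C_mul, coeff_X_pow, if_neg, mul_zero]
      intro h
      exact hβ (cnt_eq_card h.symm)
    · intro h
      exact absurd (mem_univ _) h

theorem EL_sum {ι : Type*} (s : Finset ι) (f : ι → ℝ[X]) : EL (∑ i ∈ s, f i) = ∑ i ∈ s, EL (f i) := by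
  classical
  induction s using Finset.induction_on with
  | empty =>
    rw [Finset.sum_empty, Finset.sum_empty]
    unfold EL
    simp
  | insert a s ha ih => rw [Finset.sum_insert ha, Finset.sum_insert ha, EL_add, ih]

/-- the bound for a coordinate -/
theorem wick_coord (F : (J → K) → ℝ) (m : ℕ) (hm : Fintype.card J = 2 * m)
    (h : ∀ ζ : K → ℝ, 0 ≤ frm F ζ) (k₀ : K) :
    m.factorial * F (fun _ => k₀) * mu 0 ^ Fintype.card K ≤ ∑ β : J → K, wick β * F β := by
  have hmu := mu_zero_pos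
  have h1 : ∀ ζ : K → ℝ, m.factorial * F (fun _ => k₀) * mu 0 ≤
      ∑ β : J → K, rest k₀ β ζ * (F β * mu (cnt β k₀)) := by
    intro ζ
    obtain ⟨hd, hc⟩ := slice_deg F k₀ ζ
    rw [hm] at hd hc
    have h2 := EL_lower m (slice F k₀ ζ) hd (fun t => by
      rw [slice_eval]
      exact h _)
    rw [hc] at h2
    refine h2.trans (le_of_eq ?_)
    unfold slice
    rw [EL_sum]
    refine Finset.sum_congr rfl fun β _ => ?_
    rw [EL_C, EL_pow]
    ring
  have hwt : Integrable (fun ζ : K → ℝ => ∏ k, wt (ζ k)) ∧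
      ∫ ζ : K → ℝ, ∏ k, wt (ζ k) = mu 0 ^ Fintype.card K := by
    have e1 : (fun ζ : K → ℝ => ∏ k, wt (ζ k)) = fun ζ : K → ℝ => ∏ k, ((ζ k) ^ 0 * wt (ζ k)) := by
      funext ζ
      simp
    rw [e1]
    refine ⟨Integrable.fintype_prod (f := fun (_ : K) (x : ℝ) => x ^ 0 * wt x)
      (fun k => integrable_pow_wt _), ?_⟩
    rw [integral_fintype_prod_volume_eq_prod (fun (_ : K) (x : ℝ) => x ^ 0 * wt x)]
    rw [Finset.prod_const, Finset.card_univ]
    rfl
  have h3 : ∫ ζ : K → ℝ, (m.factorial * F (fun _ => k₀) * mu 0) * ∏ k, wt (ζ k) ≤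
      ∫ ζ : K → ℝ, ∑ β : J → K, (F β * mu (cnt β k₀)) * (rest k₀ β ζ * ∏ k, wt (ζ k)) := by
    refine integral_mono (hwt.1.const_mul _)
      (integrable_finsetSum _ fun β _ => (rest_int k₀ β).1.const_mul _) fun ζ => ?_
    have h4 := mul_le_mul_of_nonneg_right (h1 ζ)
      (Finset.prod_nonneg fun k (_ : k ∈ univ) => (wt_pos (ζ k)).le)
    refine h4.trans (le_of_eq ?_)
    rw [Finset.sum_mul]
    exact Finset.sum_congr rfl fun β _ => by ring
  rw [integral_const_mul, hwt.2,
    integral_finsetSum _ fun β _ => (rest_int k₀ β).1.const_mul _] at h3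
  have h5 : ∑ β : J → K, ∫ ζ : K → ℝ, (F β * mu (cnt β k₀)) * (rest k₀ β ζ * ∏ k, wt (ζ k)) =
      mu 0 * ∑ β : J → K, wick β * F β := by
    rw [Finset.mul_sum]
    refine Finset.sum_congr rfl fun β _ => ?_
    rw [integral_const_mul, (rest_int k₀ β).2]
    unfold wick
    rw [← Finset.mul_prod_erase univ _ (Finset.mem_univ k₀)]
    ring
  rw [h5] at h3
  have h6 : mu 0 * (m.factorial * F (fun _ => k₀) * mu 0 ^ Fintype.card K) ≤
      mu 0 * ∑ β : J → K, wick β * F β := by
    refine le_trans (le_of_eq ?_) h3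
    ring
  exact le_of_mul_le_mul_left h6 hmu

/-- the coefficients of the rotated form -/
noncomputable def rotF (O : Matrix K K ℝ) (F : (J → K) → ℝ) (β : J → K) : ℝ :=
  ∑ γ : J → K, (∏ j, O (γ j) (β j)) * F γ

omit [DecidableEq K] in
theorem frm_rot (O : Matrix K K ℝ) (F : (J → K) → ℝ) (ζ : K → ℝ) :
    frm (rotF O F) ζ = frm F (O.mulVec ζ) := by
  unfold frm rotF Matrix.mulVec dotProduct
  simp only [Finset.mul_sum]
  rw [Finset.sum_comm]
  refine Finset.sum_congr rfl fun γ _ => ?_
  rw [Fintype.prod_sum, Finset.sum_mul]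
  refine Finset.sum_congr rfl fun β _ => ?_
  rw [Finset.prod_mul_distrib]
  ring

theorem wick_rot (O : Matrix K K ℝ) (hO : O.transpose * O = 1) (F : (J → K) → ℝ) :
    ∑ β : J → K, wick β * rotF O F β = ∑ β : J → K, wick β * F β := by
  rw [(wick_int (rotF O F)).2, (wick_int F).2]
  have h1 : ∀ ζ : K → ℝ, ∏ k, wt (ζ k) = Real.exp (-(1 / 2) * ∑ k, ζ k ^ 2) := by
    intro ζ
    unfold wt
    rw [← Real.exp_sum, Finset.mul_sum]
  have h2 : ∀ ζ : K → ℝ, ∑ k, (O.mulVec ζ) k ^ 2 = ∑ k, ζ k ^ 2 := by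
    intro ζ
    have e1 : ∀ η : K → ℝ, ∑ k, η k ^ 2 = dotProduct η η := by
      intro η
      unfold dotProduct
      exact Finset.sum_congr rfl fun k _ => sq _
    rw [e1, e1, Matrix.dotProduct_mulVec, Matrix.vecMul_mulVec, hO, Matrix.vecMul_one]
  refine Eq.trans ?_ (integral_orth O hO
    (fun ζ => (∑ β : J → K, (∏ j, ζ (β j)) * F β) * ∏ k, wt (ζ k)))
  refine integral_congr_ae (Filter.Eventually.of_forall fun ζ => ?_)
  have h3 := frm_rot O F ζ
  unfold frm at h3
  simp only [h3, h1, h2]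

/-- **The Gaussian mean of a nonnegative form** of degree `2 m` is at least `m!` times its value at
every unit vector. -/
theorem wick_lower (F : (J → K) → ℝ) (m : ℕ) (hm : Fintype.card J = 2 * m)
    (h : ∀ ζ : K → ℝ, 0 ≤ frm F ζ) (u : K → ℝ) (hu : ∑ k, u k ^ 2 = 1) :
    m.factorial * frm F u * mu 0 ^ Fintype.card K ≤ ∑ β : J → K, wick β * F β := by
  rcases isEmpty_or_nonempty K with hK | ⟨⟨k₀⟩⟩
  · rw [Finset.univ_eq_empty, Finset.sum_empty] at hu
    exact absurd hu zero_ne_one
  obtain ⟨O, hO, hOu⟩ := exists_orth u hu k₀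
  have h1 := wick_coord (rotF O F) m hm (fun ζ => by rw [frm_rot]; exact h _) k₀
  rw [wick_rot O hO F] at h1
  have h2 : rotF O F (fun _ => k₀) = frm F u := by
    unfold rotF frm
    simp only [hOu]
  rwa [h2] at h1

end lower

end Pool.Agent.H36QD
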